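import Mathlib

set_option autoImplicit false

namespace Pool.Agent.P.MP_8b4774_co

/-- The k-subdivided claw: centre `none`, and three legs; leg `i` is the path
`none, (i,0), (i,1), ..., (i,k-1)` of length `k`. -/
def subClaw (k : ℕ) : SimpleGraph (Option (Fin 3 × Fin k)) :=
  SimpleGraph.fromRel fun x y =>
    (x = none ∧ ∃ (i : Fin 3) (j : Fin k), j.val = 0 ∧ y = some (i, j)) ∨
    (∃ (i : Fin 3) (j j' : Fin k), j.val + 1 = j'.val ∧ x = some (i, j) ∧ y = some (i, j'))

/-- The k-subdivided net: the triangle `(0,0), (1,0), (2,0)` with the pendant path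
`(i,0), (i,1), ..., (i,k)` of length `k` at each of its vertices. -/
def subNet (k : ℕ) : SimpleGraph (Fin 3 × Fin (k + 1)) :=
  SimpleGraph.fromRel fun x y =>
    (x.2.val = 0 ∧ y.2.val = 0) ∨ (x.1 = y.1 ∧ x.2.val + 1 = y.2.val)

/-- `D` is a connected distance-`r` dominating set of `G`. -/
def IsConnDistDom {V : Type} (G : SimpleGraph V) (r : ℕ) (D : Finset V) : Prop :=
  D.Nonempty ∧ (G.induce (D : Set V)).Connected ∧ ∀ v : V, ∃ u ∈ D, G.edist v u ≤ (r : ℕ∞)

end Pool.Agent.P.MP_8b4774_co
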