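import Pool.Agent.P.MP_8b4774_co.Defs

set_option autoImplicit false
set_option synthInstance.maxSize 100000

namespace Pool.Agent.P.MP_8b4774_co

def rows : Fin 13 → ℕ := ![14, 6529, 1377, 1681, 4648, 4436, 2596, 522, 38, 2264, 12, 578, 50]

def adj (u v : Fin 13) : Bool := (rows u).testBit v.val

def G : SimpleGraph (Fin 13) where
  Adj u v := adj u v = true
  symm := ⟨by decide +kernel⟩
  loopless := ⟨by decide +kernel⟩

instance : DecidableRel G.Adj := fun u v => inferInstanceAs (Decidable (adj u v = true))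

theorem no_S2 : ∀ c a1 : Fin 13, G.Adj c a1 → ∀ a2, G.Adj c a2 → a1 ≠ a2 → ¬ G.Adj a1 a2 →
    ∀ a3, G.Adj c a3 → a1 ≠ a3 → a2 ≠ a3 → ¬ G.Adj a1 a3 → ¬ G.Adj a2 a3 →
    ∀ b1, G.Adj a1 b1 → b1 ≠ c → ¬ G.Adj c b1 → ¬ G.Adj a2 b1 → ¬ G.Adj a3 b1 →
    ∀ b2, G.Adj a2 b2 → b2 ≠ c → ¬ G.Adj c b2 → ¬ G.Adj a1 b2 → ¬ G.Adj a3 b2 → ¬ G.Adj b1 b2 →
    ∀ b3, G.Adj a3 b3 → b3 ≠ c → ¬ G.Adj c b3 → ¬ G.Adj a1 b3 → ¬ G.Adj a2 b3 → ¬ G.Adj b1 b3 →
      ¬ G.Adj b2 b3 → False := by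
  decide +kernel

theorem no_T2 : ∀ c1 c2 : Fin 13, G.Adj c1 c2 → ∀ c3, G.Adj c1 c3 → G.Adj c2 c3 →
    ∀ a1, G.Adj c1 a1 → ¬ G.Adj c2 a1 → ¬ G.Adj c3 a1 →
    ∀ a2, G.Adj c2 a2 → ¬ G.Adj c1 a2 → ¬ G.Adj c3 a2 → ¬ G.Adj a1 a2 →
    ∀ a3, G.Adj c3 a3 → ¬ G.Adj c1 a3 → ¬ G.Adj c2 a3 → ¬ G.Adj a1 a3 → ¬ G.Adj a2 a3 →
    ∀ b1, G.Adj a1 b1 → b1 ≠ c1 → ¬ G.Adj c1 b1 → ¬ G.Adj c2 b1 → ¬ G.Adj c3 b1 →
      ¬ G.Adj a2 b1 → ¬ G.Adj a3 b1 →
    ∀ b2, G.Adj a2 b2 → b2 ≠ c2 → ¬ G.Adj c1 b2 → ¬ G.Adj c2 b2 → ¬ G.Adj c3 b2 →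
      ¬ G.Adj a1 b2 → ¬ G.Adj a3 b2 → ¬ G.Adj b1 b2 →
    ∀ b3, G.Adj a3 b3 → b3 ≠ c3 → ¬ G.Adj c1 b3 → ¬ G.Adj c2 b3 → ¬ G.Adj c3 b3 →
      ¬ G.Adj a1 b3 → ¬ G.Adj a2 b3 → ¬ G.Adj b1 b3 → ¬ G.Adj b2 b3 → False := by
  decide +kernel

instance (k : ℕ) : DecidableRel (subClaw k).Adj := fun x y => by
  unfold subClaw; rw [SimpleGraph.fromRel_adj]; infer_instance

instance (k : ℕ) : DecidableRel (subNet k).Adj := fun x y => by
  unfold subNet; rw [SimpleGraph.fromRel_adj]; infer_instance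

theorem claw_free : IsEmpty (subClaw 2 ↪g G) := by
  refine ⟨fun f => ?_⟩
  have A : ∀ x y, (subClaw 2).Adj x y → G.Adj (f x) (f y) := fun x y h => f.map_adj_iff.2 h
  have N : ∀ x y, ¬ (subClaw 2).Adj x y → ¬ G.Adj (f x) (f y) :=
    fun x y h h' => h (f.map_adj_iff.1 h')
  have D : ∀ x y, x ≠ y → f x ≠ f y := fun x y h h' => h (f.injective h')
  refine no_S2 (f none) (f (some (0, 0))) (A _ _ ?_) (f (some (1, 0))) (A _ _ ?_) (D _ _ ?_)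
    (N _ _ ?_) (f (some (2, 0))) (A _ _ ?_) (D _ _ ?_) (D _ _ ?_) (N _ _ ?_) (N _ _ ?_)
    (f (some (0, 1))) (A _ _ ?_) (D _ _ ?_) (N _ _ ?_) (N _ _ ?_) (N _ _ ?_)
    (f (some (1, 1))) (A _ _ ?_) (D _ _ ?_) (N _ _ ?_) (N _ _ ?_) (N _ _ ?_) (N _ _ ?_)
    (f (some (2, 1))) (A _ _ ?_) (D _ _ ?_) (N _ _ ?_) (N _ _ ?_) (N _ _ ?_) (N _ _ ?_)
    (N _ _ ?_) <;> decide +kernel

theorem net_free : IsEmpty (subNet 2 ↪g G) := by
  refine ⟨fun f => ?_⟩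
  have A : ∀ x y, (subNet 2).Adj x y → G.Adj (f x) (f y) := fun x y h => f.map_adj_iff.2 h
  have N : ∀ x y, ¬ (subNet 2).Adj x y → ¬ G.Adj (f x) (f y) :=
    fun x y h h' => h (f.map_adj_iff.1 h')
  have D : ∀ x y, x ≠ y → f x ≠ f y := fun x y h h' => h (f.injective h')
  refine no_T2 (f (0, 0)) (f (1, 0)) (A _ _ ?_) (f (2, 0)) (A _ _ ?_) (A _ _ ?_)
    (f (0, 1)) (A _ _ ?_) (N _ _ ?_) (N _ _ ?_)
    (f (1, 1)) (A _ _ ?_) (N _ _ ?_) (N _ _ ?_) (N _ _ ?_)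
    (f (2, 1)) (A _ _ ?_) (N _ _ ?_) (N _ _ ?_) (N _ _ ?_) (N _ _ ?_)
    (f (0, 2)) (A _ _ ?_) (D _ _ ?_) (N _ _ ?_) (N _ _ ?_) (N _ _ ?_) (N _ _ ?_) (N _ _ ?_)
    (f (1, 2)) (A _ _ ?_) (D _ _ ?_) (N _ _ ?_) (N _ _ ?_) (N _ _ ?_) (N _ _ ?_) (N _ _ ?_)
    (N _ _ ?_)
    (f (2, 2)) (A _ _ ?_) (D _ _ ?_) (N _ _ ?_) (N _ _ ?_) (N _ _ ?_) (N _ _ ?_) (N _ _ ?_)
    (N _ _ ?_) (N _ _ ?_) <;> decide +kernel

theorem reach0 : ∀ v : Fin 13, v = 0 ∨ G.Adj 0 v ∨ ∃ w, G.Adj 0 w ∧ G.Adj w v := by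
  decide +kernel

theorem G_connected : G.Connected := by
  refine ⟨fun u v => ?_⟩
  have h : ∀ v : Fin 13, G.Reachable 0 v := by
    intro v
    rcases reach0 v with rfl | h | ⟨w, h1, h2⟩
    · exact SimpleGraph.Reachable.refl _
    · exact h.reachable
    · exact h1.reachable.trans h2.reachable
  exact (h u).symm.trans (h v)

theorem claw_set : IsConnDistDom G 1 {0, 1, 2, 3} := by
  refine ⟨⟨0, by decide⟩, ?_, ?_⟩
  · have h : ∀ v : (({0, 1, 2, 3} : Finset (Fin 13)) : Set (Fin 13)),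
        (G.induce (({0, 1, 2, 3} : Finset (Fin 13)) : Set (Fin 13))).Reachable ⟨0, by simp⟩ v := by
      rintro ⟨v, hv⟩
      have hv' : v = 0 ∨ G.Adj 0 v := by
        simp only [Finset.coe_insert, Finset.coe_singleton, Set.mem_insert_iff,
          Set.mem_singleton_iff] at hv
        rcases hv with rfl | rfl | rfl | rfl <;> decide +kernel
      rcases hv' with rfl | h
      · exact SimpleGraph.Reachable.refl _
      · exact SimpleGraph.Adj.reachable (by simpa using h)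
    have : Nonempty (({0, 1, 2, 3} : Finset (Fin 13)) : Set (Fin 13)) := ⟨⟨0, by simp⟩⟩
    exact ⟨fun u v => (h u).symm.trans (h v)⟩
  · have h : ∀ v : Fin 13, ∃ u ∈ ({0, 1, 2, 3} : Finset (Fin 13)), G.Adj v u ∨ v = u := by
      decide +kernel
    intro v
    obtain ⟨u, hu, h'⟩ := h v
    exact ⟨u, hu, by exact_mod_cast SimpleGraph.edist_le_one_iff_adj_or_eq.2 h'⟩

/-- In a connected induced subgraph with at most four vertices the vertices can be listed so that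
each is equal or adjacent to an earlier one; we only need the following consequence. -/
theorem cut_edge {D : Finset (Fin 13)} (hD : (G.induce (D : Set (Fin 13))).Connected)
    (S : Fin 13 → Prop) {x y : Fin 13} (hx : x ∈ D) (hy : y ∈ D) (hSx : S x) (hSy : ¬ S y) :
    ∃ u ∈ D, ∃ w ∈ D, S u ∧ ¬ S w ∧ G.Adj u w := by
  obtain ⟨p⟩ := hD.preconnected ⟨x, hx⟩ ⟨y, hy⟩
  have key : ∀ (a b : (D : Set (Fin 13))) (_ : (G.induce (D : Set (Fin 13))).Walk a b),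
      S a.1 → ¬ S b.1 → ∃ u ∈ D, ∃ w ∈ D, S u ∧ ¬ S w ∧ G.Adj u w := by
    intro a b q
    induction q with
    | nil => intro h1 h2; exact absurd h1 h2
    | @cons a c b h _ ih =>
      intro h1 h2
      by_cases hc : S c.1
      · exact ih hc h2
      · exact ⟨a.1, a.2, c.1, c.2, h1, hc, by simpa using h⟩
  exact key _ _ p hSx hSy

theorem small_check : ∀ a b : Fin 13, (a = b ∨ G.Adj a b) →
    ∀ c, (a = c ∨ G.Adj a c ∨ G.Adj b c) → ∀ d, (a = d ∨ G.Adj a d ∨ G.Adj b d ∨ G.Adj c d) →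
    (∀ v, (G.Adj v a ∨ v = a) ∨ (G.Adj v b ∨ v = b) ∨ (G.Adj v c ∨ v = c) ∨ (G.Adj v d ∨ v = d)) →
    ∀ v : Fin 13, v.val ≤ 3 → (v = a ∨ v = b ∨ v = c ∨ v = d) := by
  decide +kernel

theorem extend {D : Finset (Fin 13)} (hD : (G.induce (D : Set (Fin 13))).Connected)
    (S : Finset (Fin 13)) (hS : S ⊆ D) {a : Fin 13} (ha : a ∈ S) :
    S = D ∨ ∃ w ∈ D, w ∉ S ∧ ∃ u ∈ S, G.Adj u w := by
  by_cases h : D ⊆ S
  · exact Or.inl (Finset.Subset.antisymm hS h)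
  · obtain ⟨y, hy, hy'⟩ := Finset.not_subset.1 h
    obtain ⟨u, -, w, hw, h1, h2, h3⟩ := cut_edge hD (fun x => x ∈ S) (hS ha) hy ha hy'
    exact Or.inr ⟨w, hw, h2, u, h1, h3⟩

theorem contains_claw {D : Finset (Fin 13)} (hD : IsConnDistDom G 1 D) (h4 : D.card ≤ 4) :
    ∀ v : Fin 13, v.val ≤ 3 → v ∈ D := by
  obtain ⟨⟨a, ha⟩, hc, hdom⟩ := hD
  have fin : ∀ b c d : Fin 13, D = {a, b, c, d} → (a = b ∨ G.Adj a b) →
      (a = c ∨ G.Adj a c ∨ G.Adj b c) → (a = d ∨ G.Adj a d ∨ G.Adj b d ∨ G.Adj c d) →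
      ∀ v : Fin 13, v.val ≤ 3 → v ∈ D := by
    intro b c d hD h1 h2 h3 v hv
    have := small_check a b h1 c h2 d h3 (fun v => by
      obtain ⟨u, hu, h'⟩ := hdom v
      have h'' : G.Adj v u ∨ v = u :=
        SimpleGraph.edist_le_one_iff_adj_or_eq.1 (by exact_mod_cast h')
      rw [hD] at hu
      simp only [Finset.mem_insert, Finset.mem_singleton] at hu
      rcases hu with rfl | rfl | rfl | rfl <;> tauto) v hv
    rw [hD]
    simpa using this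
  rcases extend hc {a} (by simpa using ha) (Finset.mem_singleton_self a) with
    h | ⟨b, hb, hb', u, hu, hab⟩
  · exact fin a a a (by rw [← h]; simp) (Or.inl rfl) (Or.inl rfl) (Or.inl rfl)
  rw [Finset.mem_singleton] at hu hb'
  subst hu
  rcases extend hc {u, b} (by simp [Finset.insert_subset_iff, ha, hb]) (a := u) (by simp) with
    h | ⟨c, hc1, hc', u', hu', hc2⟩
  · exact fin b u u (by rw [← h]; ext; simp; tauto) (Or.inr hab) (Or.inl rfl) (Or.inl rfl)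
  have hc3 : u = c ∨ G.Adj u c ∨ G.Adj b c := by
    simp only [Finset.mem_insert, Finset.mem_singleton] at hu'
    rcases hu' with rfl | rfl <;> tauto
  rcases extend hc {u, b, c} (by simp [Finset.insert_subset_iff, ha, hb, hc1]) (a := u)
    (by simp) with h | ⟨d, hd1, hd', u'', hu'', hd2⟩
  · exact fin b c u (by rw [← h]; ext; simp; tauto) (Or.inr hab) hc3 (Or.inl rfl)
  have hd3 : u = d ∨ G.Adj u d ∨ G.Adj b d ∨ G.Adj c d := by
    simp only [Finset.mem_insert, Finset.mem_singleton] at hu''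
    rcases hu'' with rfl | rfl | rfl <;> tauto
  refine fin b c d ?_ (Or.inr hab) hc3 hd3
  symm
  apply Finset.eq_of_subset_of_card_le (by simp [Finset.insert_subset_iff, ha, hb, hc1, hd1])
  simp only [Finset.mem_insert, Finset.mem_singleton, not_or] at hc' hd'
  rw [Finset.card_insert_of_notMem (by simp; tauto), Finset.card_insert_of_notMem (by simp; tauto),
    Finset.card_insert_of_notMem (by simp; tauto), Finset.card_singleton]
  exact h4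

def clawMap : Option (Fin 3 × Fin 1) → Fin 13
  | none => 0
  | some (i, _) => ⟨i.val + 1, by omega⟩

theorem clawMap_spec : (∀ x, (clawMap x).val ≤ 3) ∧ (∀ x y, clawMap x = clawMap y → x = y) ∧
    ∀ x y, G.Adj (clawMap x) (clawMap y) ↔ (subClaw 1).Adj x y := by
  decide +kernel

theorem main : ¬ ∀ k : ℕ, 2 ≤ k → ∀ (V : Type) [Fintype V] (G : SimpleGraph V), G.Connected →
    IsEmpty (subClaw k ↪g G) → IsEmpty (subNet k ↪g G) →
    ∃ D : Finset V, IsConnDistDom G (k - 1) D ∧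
      (∀ D' : Finset V, IsConnDistDom G (k - 1) D' → D.card ≤ D'.card) ∧
      IsEmpty (subClaw 1 ↪g G.induce (D : Set V)) ∧ IsEmpty (subNet 1 ↪g G.induce (D : Set V)) := by
  intro h
  obtain ⟨D, hD, hmin, hclaw, -⟩ := h 2 le_rfl (Fin 13) G G_connected claw_free net_free
  have h4 : D.card ≤ 4 := (hmin _ claw_set).trans (by decide)
  have hin := contains_claw hD h4
  obtain ⟨s1, s2, s3⟩ := clawMap_spec
  exact hclaw.false ⟨⟨fun x => ⟨clawMap x, hin _ (s1 x)⟩, fun x y hxy =>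
    s2 x y (congrArg Subtype.val hxy)⟩, by intro x y; simpa using s3 x y⟩

end Pool.Agent.P.MP_8b4774_co
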