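import Pool.Agent.P.MP_8b4774_co.RepDefs

set_option autoImplicit false

namespace Pool.Agent.P.MP_8b4774_co.Rep

open Relation

variable {V : Type} (G : SimpleGraph V)

/-- reachable by steps into `S` -/
def RIn (S : Finset V) : V → V → Prop := ReflTransGen (fun x y => G.Adj x y ∧ y ∈ S)

def Conn (D : Finset V) : Prop := ∀ x ∈ D, ∀ y ∈ D, RIn G D x y

def Chain (p : ℕ → V) (n : ℕ) : Prop := ∀ s, s < n → G.Adj (p s) (p (s + 1))

/-- neither equal nor adjacent -/
def Ap (x y : V) : Prop := x ≠ y ∧ ¬ G.Adj x y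

variable {G}

theorem Ap.symm {x y : V} (h : Ap G x y) : Ap G y x := ⟨h.1.symm, fun h' => h.2 h'.symm⟩

theorem RIn.mono {S T : Finset V} (h : S ⊆ T) {x y : V} (hr : RIn G S x y) : RIn G T x y := by
  induction hr with
  | refl => exact ReflTransGen.refl
  | tail _ h2 ih => exact ReflTransGen.tail ih ⟨h2.1, h h2.2⟩

theorem RIn.refl (S : Finset V) (x : V) : RIn G S x x := ReflTransGen.refl

theorem RIn.tail {S : Finset V} {x y z : V} (h : RIn G S x y) (ha : G.Adj y z) (hz : z ∈ S) :
    RIn G S x z := ReflTransGen.tail h ⟨ha, hz⟩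

theorem RIn.trans {S : Finset V} {x y z : V} (h : RIn G S x y) (h' : RIn G S y z) :
    RIn G S x z := ReflTransGen.trans h h'

theorem RIn.mem {S : Finset V} {x y : V} (h : RIn G S x y) : y = x ∨ y ∈ S := by
  induction h with
  | refl => exact Or.inl rfl
  | tail _ h _ => exact Or.inr h.2

theorem RIn.symm {S : Finset V} {x y : V} (h : RIn G S x y) (hx : x ∈ S) : RIn G S y x := by
  induction h with
  | refl => exact ReflTransGen.refl
  | @tail b c h1 h2 ih =>
    have hb : b ∈ S := by
      rcases RIn.mem h1 with rfl | h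
      · exact hx
      · exact h
    exact ReflTransGen.head ⟨h2.1.symm, hb⟩ ih

theorem conn_of_root {D : Finset V} {b : V} (hb : b ∈ D) (h : ∀ x ∈ D, RIn G D b x) : Conn G D :=
  fun x hx y hy => ((h x hx).symm hb).trans (h y hy)

theorem RIn.first {S : Finset V} {x y : V} (h : RIn G S x y) (hne : y ≠ x) :
    ∃ z ∈ S, G.Adj x z := by
  rcases ReflTransGen.cases_head h with rfl | ⟨z, hz, _⟩
  · exact absurd rfl hne
  · exact ⟨z, hz.2, hz.1⟩

theorem RIn.last {S : Finset V} {x y : V} (h : RIn G S x y) (hne : y ≠ x) :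
    ∃ z, (z = x ∨ z ∈ S) ∧ G.Adj z y := by
  rcases ReflTransGen.cases_tail h with rfl | ⟨z, hz, hz'⟩
  · exact absurd rfl hne
  · exact ⟨z, RIn.mem hz, hz'.1⟩

variable [DecidableEq V]

theorem Conn.insert {D : Finset V} (h : Conn G D) {q l : V} (hl : l ∈ D) (ha : G.Adj l q) :
    Conn G (insert q D) := by
  refine conn_of_root (Finset.mem_insert_of_mem hl) fun x hx => ?_
  rcases Finset.mem_insert.1 hx with rfl | hx
  · exact (RIn.refl _ _).tail ha (Finset.mem_insert_self _ _)
  · exact (h l hl x hx).mono (Finset.subset_insert _ _)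

/-- removing a vertex with only one neighbour -/
theorem RIn.erase_leaf {S : Finset V} {b l w x : V} (hb : b ≠ l)
    (hw : ∀ y, (y = b ∨ y ∈ S) → G.Adj l y → y = w) (h : RIn G S b x) :
    (x ≠ l → RIn G (S.erase l) b x) ∧ (x = l → RIn G (S.erase l) b w) := by
  induction h with
  | refl => exact ⟨fun _ => RIn.refl _ _, fun h => absurd h hb⟩
  | @tail y z h1 h2 ih =>
    constructor
    · intro hz
      by_cases hy : y = l
      · subst hy
        rw [hw z (Or.inr h2.2) h2.1]
        exact ih.2 rfl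
      · exact (ih.1 hy).tail h2.1 (Finset.mem_erase.2 ⟨hz, h2.2⟩)
    · intro hz
      subst hz
      have := hw y (RIn.mem h1) h2.1.symm
      rw [← this]
      exact ih.1 h2.1.ne

/-- a connected proper part can be completed so that one vertex is missing -/
theorem exists_noncut {D : Finset V} (hD : Conn G D) :
    ∀ (n : ℕ) (E : Finset V), E ⊆ D → E.Nonempty → Conn G E → D.card - E.card = n + 1 →
      ∃ l ∈ D, l ∉ E ∧ Conn G (D.erase l) := by
  intro n
  induction n with
  | zero =>
    intro E hE _ hc hn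
    have h1 : (D \ E).card = 1 := by rw [Finset.card_sdiff_of_subset hE]; omega
    obtain ⟨l, hl⟩ := Finset.card_eq_one.1 h1
    have hl' : l ∈ D \ E := by rw [hl]; simp
    refine ⟨l, (Finset.mem_sdiff.1 hl').1, (Finset.mem_sdiff.1 hl').2, ?_⟩
    have : D.erase l = E := by
      ext x
      simp only [Finset.mem_erase]
      constructor
      · rintro ⟨h1, h2⟩
        by_contra h3
        have : x ∈ D \ E := Finset.mem_sdiff.2 ⟨h2, h3⟩
        rw [hl] at this
        exact h1 (Finset.mem_singleton.1 this)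
      · intro hx
        exact ⟨fun h => (Finset.mem_sdiff.1 hl').2 (h ▸ hx), hE hx⟩
    rw [this]; exact hc
  | succ n ih =>
    intro E hE hne hc hn
    obtain ⟨b, hb⟩ := hne
    have h1 : (D \ E).Nonempty := by
      rw [← Finset.card_pos, Finset.card_sdiff_of_subset hE]; omega
    obtain ⟨x, hx⟩ := h1
    have key : ∀ y, RIn G D b y → y ∈ E ∨ ∃ u ∈ E, ∃ v ∈ D, v ∉ E ∧ G.Adj u v := by
      intro y hy
      induction hy with
      | refl => exact Or.inl hb
      | @tail c d _ h2 ih2 =>
        rcases ih2 with h | h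
        · by_cases hd : d ∈ E
          · exact Or.inl hd
          · exact Or.inr ⟨c, h, d, h2.2, hd, h2.1⟩
        · exact Or.inr h
    rcases key x (hD b (hE hb) x (Finset.mem_sdiff.1 hx).1) with h | ⟨u, hu, v, hv, hv', ha⟩
    · exact absurd h (Finset.mem_sdiff.1 hx).2
    · obtain ⟨l, hl, hl', hc'⟩ := ih (insert v E) (Finset.insert_subset hv hE)
        ⟨v, Finset.mem_insert_self _ _⟩ (hc.insert hu ha)
        (by rw [Finset.card_insert_of_notMem hv']; omega)
      exact ⟨l, hl, fun h => hl' (Finset.mem_insert_of_mem h), hc'⟩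

omit [DecidableEq V] in
theorem Chain.reach {H : SimpleGraph V} {p : ℕ → V} {n : ℕ} (h : Chain H p n) :
    ∀ (d i : ℕ), i + d ≤ n → H.Reachable (p i) (p (i + d)) ∧ H.dist (p i) (p (i + d)) ≤ d := by
  intro d
  induction d with
  | zero => intro i _; simp
  | succ d ih =>
    intro i hi
    obtain ⟨h1, h2⟩ := ih i (by omega)
    have ha : H.Adj (p (i + d)) (p (i + d + 1)) := h (i + d) (by omega)
    refine ⟨h1.trans ha.reachable, ?_⟩
    have h3 := h1.dist_triangle_left (p (i + d + 1))
    have h4 := SimpleGraph.dist_eq_one_iff_adj.2 ha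
    show H.dist (p i) (p (i + d + 1)) ≤ d + 1
    omega

omit [DecidableEq V] in
theorem Chain.dist_le {H : SimpleGraph V} {p : ℕ → V} {n : ℕ} (h : Chain H p n) {i j : ℕ}
    (hij : i ≤ j) (hj : j ≤ n) : H.Reachable (p i) (p j) ∧ H.dist (p i) (p j) ≤ j - i := by
  have := h.reach (j - i) i (by omega)
  rwa [show i + (j - i) = j by omega] at this

omit [DecidableEq V] in
theorem exists_geo {H : SimpleGraph V} {x u : V} (h : H.Reachable x u) :
    ∃ p : ℕ → V, p 0 = x ∧ p (H.dist x u) = u ∧ Chain H p (H.dist x u) := by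
  obtain ⟨w, hw⟩ := h.exists_walk_length_eq_dist
  refine ⟨w.getVert, w.getVert_zero, ?_, fun s hs => w.adj_getVert_succ (by omega)⟩
  rw [← hw]; exact w.getVert_length

/-- an induced path of length at least `k` inside `S` -/
theorem exists_leg {S : Finset V} {b u : V} {k : ℕ} (h : RIn G S b u)
    (hk : k ≤ G.dist b u) :
    ∃ p : ℕ → V, p 0 = b ∧ (∀ s, 1 ≤ s → s ≤ k → p s ∈ S) ∧
      (∀ s t, s ≤ k → t ≤ k → p s = p t → s = t) ∧
      (∀ s t, s ≤ k → t ≤ k → (G.Adj (p s) (p t) ↔ s + 1 = t ∨ t + 1 = s)) := by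
  let H : SimpleGraph V :=
    { Adj := fun x y => G.Adj x y ∧ x ∈ insert b S ∧ y ∈ insert b S
      symm := ⟨fun x y h => ⟨h.1.symm, h.2.2, h.2.1⟩⟩
      loopless := ⟨fun x h => G.loopless.1 x h.1⟩ }
  have hr : ∀ y, RIn G S b y → H.Reachable b y := by
    intro y hy
    induction hy with
    | refl => exact SimpleGraph.Reachable.refl _
    | @tail c d h1 h2 ih =>
      refine ih.trans (SimpleGraph.Adj.reachable ⟨h2.1, ?_, Finset.mem_insert_of_mem h2.2⟩)
      exact Finset.mem_insert.2 (RIn.mem h1)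
  obtain ⟨p, h0, hn, hc⟩ := exists_geo (hr u h)
  set n := H.dist b u with hdef
  have hcG : Chain G p n := fun s hs => (hc s hs).1
  have hkn : k ≤ n := by
    have := (hcG.dist_le (Nat.zero_le n) le_rfl).2
    rw [h0, hn] at this; omega
  have hd : ∀ s, s ≤ n → H.Reachable b (p s) ∧ H.dist b (p s) = s := by
    intro s hs
    obtain ⟨h1, h2⟩ := hc.dist_le (Nat.zero_le s) hs
    obtain ⟨_, h4⟩ := hc.dist_le hs le_rfl
    rw [h0] at h1 h2
    rw [hn] at h4
    have h5 := h1.dist_triangle_left u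
    exact ⟨h1, by omega⟩
  have hm : ∀ s, s ≤ n → p s ∈ insert b S := by
    intro s hs
    rcases s with _ | s
    · rw [h0]; exact Finset.mem_insert_self _ _
    · exact (hc s (by omega)).2.2
  have hinj : ∀ s t, s ≤ n → t ≤ n → p s = p t → s = t := by
    intro s t hs ht he
    have h1 := (hd s hs).2
    have h2 := (hd t ht).2
    rw [he] at h1; omega
  refine ⟨p, h0, fun s h1 hs => ?_, fun s t hs ht => hinj s t (by omega) (by omega),
    fun s t hs ht => ⟨fun ha => ?_, ?_⟩⟩
  · rcases Finset.mem_insert.1 (hm s (by omega)) with h' | h'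
    · have := hinj s 0 (by omega) (by omega) (h'.trans h0.symm); omega
    · exact h'
  · have haH : H.Adj (p s) (p t) := ⟨ha, hm s (by omega), hm t (by omega)⟩
    have h1 := (hd s (by omega)).1.dist_triangle_left (p t)
    have h2 := (hd t (by omega)).1.dist_triangle_left (p s)
    rw [SimpleGraph.dist_eq_one_iff_adj.2 haH] at h1
    rw [SimpleGraph.dist_eq_one_iff_adj.2 haH.symm] at h2
    have h3 := (hd s (by omega)).2
    have h4 := (hd t (by omega)).2
    have h5 : s ≠ t := fun h => ha.ne (by rw [h])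
    omega
  · rintro (rfl | rfl)
    · exact hcG s (by omega)
    · exact (hcG t (by omega)).symm

end Pool.Agent.P.MP_8b4774_co.Rep
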