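import Pool.Agent.P.MP_8b4774_co.RepA

set_option autoImplicit false

namespace Pool.Agent.P.MP_8b4774_co.Rep

variable {V : Type} (G : SimpleGraph V)

/-- `x` is apart from the branch `(b', Y')`, seen from the base vertex `b` -/
def Off (b b' : V) (Y' : Finset V) (x : V) : Prop :=
  (∀ y ∈ Y', Ap G x y) ∧ x ≠ b' ∧ (b' ≠ b → ¬ G.Adj x b')

def Sep (b : V) (Y : Finset V) (b' : V) (Y' : Finset V) : Prop :=
  (∀ x ∈ Y, Off G b b' Y' x) ∧ ∀ y ∈ Y', Off G b' b Y y

def Br (b : V) (Y : Finset V) : Prop := b ∉ Y ∧ ∀ x ∈ Y, RIn G Y b x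

/-- three branches on a common centre or on a triangle -/
structure Tri (a : V) (A : Finset V) (b : V) (B : Finset V) (c : V) (C : Finset V) : Prop where
  base : (a = b ∧ b = c) ∨ (G.Adj a b ∧ G.Adj b c ∧ G.Adj a c)
  ab : Sep G a A b B
  bc : Sep G b B c C
  ac : Sep G a A c C
  ra : Br G a A
  rb : Br G b B
  rc : Br G c C

variable {G}

theorem Sep.symm {b b' : V} {Y Y' : Finset V} (h : Sep G b Y b' Y') : Sep G b' Y' b Y :=
  ⟨h.2, h.1⟩

theorem Tri.swap12 {a b c : V} {A B C : Finset V} (h : Tri G a A b B c C) : Tri G b B a A c C :=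
  ⟨by
    rcases h.base with h | h
    · exact Or.inl ⟨h.1.symm, h.1.trans h.2⟩
    · exact Or.inr ⟨h.1.symm, h.2.2, h.2.1⟩,
   h.ab.symm, h.ac, h.bc, h.rb, h.ra, h.rc⟩

theorem Tri.swap23 {a b c : V} {A B C : Finset V} (h : Tri G a A b B c C) : Tri G a A c C b B :=
  ⟨by
    rcases h.base with h | h
    · exact Or.inl ⟨h.1.trans h.2, h.2.symm⟩
    · exact Or.inr ⟨h.2.2, h.2.1.symm, h.1⟩,
   h.ac, h.bc.symm, h.ab, h.ra, h.rc, h.rb⟩

theorem spider_adj {l : Fin 3 → ℕ} (x y : Option (Σ i : Fin 3, Fin (l i))) :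
    (spider l).Adj x y ↔
      match x, y with
      | none, none => False
      | none, some y => y.2.val = 0
      | some x, none => x.2.val = 0
      | some x, some y => x.1 = y.1 ∧ (x.2.val + 1 = y.2.val ∨ y.2.val + 1 = x.2.val) := by
  unfold spider
  rw [SimpleGraph.fromRel_adj]
  rcases x with _ | ⟨i, s⟩ <;> rcases y with _ | ⟨j, t⟩
  · simp
  · constructor
    · rintro ⟨_, (⟨_, i, s, h, h'⟩ | ⟨_, _, _, _, h, _⟩) | (⟨h, _⟩ | ⟨_, _, _, _, _, h⟩)⟩
      · cases h'; exact h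
      · cases h
      · cases h
      · cases h
    · intro h; exact ⟨by simp, Or.inl (Or.inl ⟨rfl, j, t, h, rfl⟩)⟩
  · constructor
    · rintro ⟨_, (⟨h, _⟩ | ⟨_, _, _, _, _, h⟩) | (⟨_, i, s, h, h'⟩ | ⟨_, _, _, _, h, _⟩)⟩
      · cases h
      · cases h
      · cases h'; exact h
      · cases h
    · intro h; exact ⟨by simp, Or.inr (Or.inl ⟨rfl, i, s, h, rfl⟩)⟩
  · constructor
    · rintro ⟨_, (⟨h, _⟩ | ⟨_, _, _, h, h1, h2⟩) | (⟨h, _⟩ | ⟨_, _, _, h, h1, h2⟩)⟩
      · cases h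
      · cases h1; cases h2; exact ⟨rfl, Or.inl h⟩
      · cases h
      · cases h1; cases h2; exact ⟨rfl, Or.inr h⟩
    · rintro ⟨h, h'⟩
      dsimp only at h h'
      subst h
      refine ⟨fun he => ?_, ?_⟩
      · cases he; omega
      · rcases h' with h' | h'
        · exact Or.inl (Or.inr ⟨i, s, t, h', rfl, rfl⟩)
        · exact Or.inr (Or.inr ⟨i, t, s, h', rfl, rfl⟩)

theorem genNet_adj {l : Fin 3 → ℕ} (x y : Σ i : Fin 3, Fin (l i + 1)) :
    (genNet l).Adj x y ↔ (x.1 ≠ y.1 ∧ x.2.val = 0 ∧ y.2.val = 0) ∨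
      (x.1 = y.1 ∧ (x.2.val + 1 = y.2.val ∨ y.2.val + 1 = x.2.val)) := by
  unfold genNet
  rw [SimpleGraph.fromRel_adj]
  obtain ⟨i, s⟩ := x
  obtain ⟨j, t⟩ := y
  by_cases hij : i = j
  · subst hij
    have : (⟨i, s⟩ : Σ i : Fin 3, Fin (l i + 1)) ≠ ⟨i, t⟩ ↔ s.val ≠ t.val := by
      simp [Fin.ext_iff]
    rw [this]; simp; omega
  · have : (⟨i, s⟩ : Σ i : Fin 3, Fin (l i + 1)) ≠ ⟨j, t⟩ := fun h => hij (congrArg Sigma.fst h)
    have hji : ¬ j = i := fun h => hij h.symm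
    simp [this, hij, hji]; tauto

/-- data of three induced legs -/
structure Legs (G : SimpleGraph V) (k : ℕ) (p : Fin 3 → ℕ → V) : Prop where
  inj : ∀ i s t, s ≤ k → t ≤ k → p i s = p i t → s = t
  adj : ∀ i s t, s ≤ k → t ≤ k → (G.Adj (p i s) (p i t) ↔ s + 1 = t ∨ t + 1 = s)
  cross : ∀ i j, i ≠ j → ∀ s t, 1 ≤ s → s ≤ k → 1 ≤ t → t ≤ k → Ap G (p i s) (p j t)
  cbase : ∀ i j, i ≠ j → p j 0 ≠ p i 0 → ∀ s, 1 ≤ s → s ≤ k → Ap G (p i s) (p j 0)

theorem Legs.spider {k : ℕ} {p : Fin 3 → ℕ → V} (h : Legs G k p) (h0 : ∀ i, p i 0 = p 0 0) :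
    Nonempty (spider (fun _ => k) ↪g G) := by
  let f : Option (Σ _ : Fin 3, Fin k) → V := fun x =>
    match x with
    | none => p 0 0
    | some x => p x.1 (x.2.val + 1)
  refine ⟨⟨⟨f, ?_⟩, ?_⟩⟩
  · rintro (_ | ⟨i, s⟩) (_ | ⟨j, t⟩) he
    · rfl
    · have := h.inj j 0 (t.val + 1) (by omega) t.2 ((h0 j).trans he); omega
    · have := h.inj i 0 (s.val + 1) (by omega) s.2 ((h0 i).trans he.symm); omega
    · by_cases hij : i = j
      · subst hij
        have := h.inj i (s.val + 1) (t.val + 1) s.2 t.2 he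
        have h2 : s = t := Fin.ext (by omega)
        rw [h2]
      · exact absurd he (h.cross i j hij _ _ (by omega) s.2 (by omega) t.2).1
  · rintro (_ | ⟨i, s⟩) (_ | ⟨j, t⟩) <;> rw [spider_adj]
    · simp
    · show G.Adj (p 0 0) (p j (t.val + 1)) ↔ t.val = 0
      rw [← h0 j, h.adj j 0 _ (by omega) t.2]; omega
    · show G.Adj (p i (s.val + 1)) (p 0 0) ↔ s.val = 0
      rw [← h0 i, h.adj i _ 0 s.2 (by omega)]; omega
    · show G.Adj (p i (s.val + 1)) (p j (t.val + 1)) ↔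
        i = j ∧ (s.val + 1 = t.val ∨ t.val + 1 = s.val)
      by_cases hij : i = j
      · subst hij
        rw [h.adj i _ _ s.2 t.2]; simp only [true_and]; omega
      · simp [hij, (h.cross i j hij _ _ (by omega) s.2 (by omega) t.2).2]

theorem Legs.net {k : ℕ} {p : Fin 3 → ℕ → V} (h : Legs G k p)
    (h0 : ∀ i j, i ≠ j → G.Adj (p i 0) (p j 0)) : Nonempty (genNet (fun _ => k) ↪g G) := by
  have hx : ∀ i j, i ≠ j → ∀ s t, s ≤ k → t ≤ k → ¬ (s = 0 ∧ t = 0) → Ap G (p i s) (p j t) := by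
    intro i j hij s t hs ht hst
    rcases Nat.eq_zero_or_pos s with rfl | hs' <;> rcases Nat.eq_zero_or_pos t with rfl | ht'
    · simp at hst
    · exact (h.cbase j i hij.symm (h0 i j hij).ne t ht' ht).symm
    · exact h.cbase i j hij (h0 j i hij.symm).ne s hs' hs
    · exact h.cross i j hij s t hs' hs ht' ht
  refine ⟨⟨⟨fun x => p x.1 x.2.val, ?_⟩, ?_⟩⟩
  · rintro ⟨i, s⟩ ⟨j, t⟩ he
    have hs := Nat.lt_succ_iff.1 s.2
    have ht := Nat.lt_succ_iff.1 t.2
    by_cases hij : i = j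
    · subst hij
      have h2 : s = t := Fin.ext (h.inj i _ _ hs ht he)
      rw [h2]
    · by_cases hst : s.val = 0 ∧ t.val = 0
      · dsimp only at he
        rw [hst.1, hst.2] at he
        exact absurd he (h0 i j hij).ne
      · exact absurd he (hx i j hij _ _ hs ht hst).1
  · rintro ⟨i, s⟩ ⟨j, t⟩
    rw [genNet_adj]
    have hs := Nat.lt_succ_iff.1 s.2
    have ht := Nat.lt_succ_iff.1 t.2
    show G.Adj (p i s.val) (p j t.val) ↔ (i ≠ j ∧ s.val = 0 ∧ t.val = 0) ∨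
      (i = j ∧ (s.val + 1 = t.val ∨ t.val + 1 = s.val))
    by_cases hij : i = j
    · subst hij
      rw [h.adj i _ _ hs ht]; simp
    · by_cases hst : s.val = 0 ∧ t.val = 0
      · rw [hst.1, hst.2]; simp [hij, h0 i j hij]
      · refine ⟨fun ha => absurd ha (hx i j hij _ _ hs ht hst).2, ?_⟩
        rintro (⟨_, h'⟩ | ⟨h', _⟩)
        · exact absurd h' hst
        · exact absurd h' hij

variable [DecidableEq V]

/-- three branches that reach distance `k` give an induced `S_k` or `T_k` -/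
theorem Tri.embed {k : ℕ} {a b c : V} {A B C : Finset V} (h : Tri G a A b B c C)
    (ha : ∃ u ∈ A, k ≤ G.dist a u) (hb : ∃ u ∈ B, k ≤ G.dist b u) (hc : ∃ u ∈ C, k ≤ G.dist c u) :
    Nonempty (spider (fun _ => k) ↪g G) ∨ Nonempty (genNet (fun _ => k) ↪g G) := by
  obtain ⟨u, hu, hu'⟩ := ha
  obtain ⟨v, hv, hv'⟩ := hb
  obtain ⟨w, hw, hw'⟩ := hc
  obtain ⟨p, p0, pm, pi, pa⟩ := exists_leg (h.ra.2 u hu) hu'
  obtain ⟨q, q0, qm, qi, qa⟩ := exists_leg (h.rb.2 v hv) hv'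
  obtain ⟨r, r0, rm, ri, ra⟩ := exists_leg (h.rc.2 w hw) hw'
  have hL : Legs G k ![p, q, r] := by
    refine ⟨fun i => ?_, fun i => ?_, fun i j hij s t hs hs' ht ht' => ?_,
      fun i j hij hne s hs hs' => ?_⟩
    · fin_cases i <;> assumption
    · fin_cases i <;> assumption
    · fin_cases i <;> fin_cases j <;> first
        | exact absurd rfl hij
        | exact (h.ab.1 _ (pm s hs hs')).1 _ (qm t ht ht')
        | exact (h.ac.1 _ (pm s hs hs')).1 _ (rm t ht ht')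
        | exact (h.ab.2 _ (qm s hs hs')).1 _ (pm t ht ht')
        | exact (h.bc.1 _ (qm s hs hs')).1 _ (rm t ht ht')
        | exact (h.ac.2 _ (rm s hs hs')).1 _ (pm t ht ht')
        | exact (h.bc.2 _ (rm s hs hs')).1 _ (qm t ht ht')
    · subst p0 q0 r0
      fin_cases i <;> fin_cases j <;> first
        | exact absurd rfl hij
        | exact ⟨(h.ab.1 _ (pm s hs hs')).2.1, (h.ab.1 _ (pm s hs hs')).2.2 hne⟩
        | exact ⟨(h.ac.1 _ (pm s hs hs')).2.1, (h.ac.1 _ (pm s hs hs')).2.2 hne⟩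
        | exact ⟨(h.ab.2 _ (qm s hs hs')).2.1, (h.ab.2 _ (qm s hs hs')).2.2 hne⟩
        | exact ⟨(h.bc.1 _ (qm s hs hs')).2.1, (h.bc.1 _ (qm s hs hs')).2.2 hne⟩
        | exact ⟨(h.ac.2 _ (rm s hs hs')).2.1, (h.ac.2 _ (rm s hs hs')).2.2 hne⟩
        | exact ⟨(h.bc.2 _ (rm s hs hs')).2.1, (h.bc.2 _ (rm s hs hs')).2.2 hne⟩
  subst p0 q0 r0
  rcases h.base with hb | hb
  · refine Or.inl (hL.spider fun i => ?_)
    fin_cases i
    · rfl
    · exact hb.1.symm
    · exact (hb.1.trans hb.2).symm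
  · refine Or.inr (hL.net fun i j hij => ?_)
    fin_cases i <;> fin_cases j <;> first
      | exact absurd rfl hij
      | exact hb.1
      | exact hb.1.symm
      | exact hb.2.1
      | exact hb.2.1.symm
      | exact hb.2.2
      | exact hb.2.2.symm

/-- the third branch can be enlarged so that the rest of `D` stays connected -/
theorem Tri.enlarge {a b c : V} {A B C D : Finset V} (h : Tri G a A b B c C) (hD : Conn G D)
    (ha : a ∈ D) (hb : b ∈ D) (hc : c ∈ D) (hA : A ⊆ D) (hB : B ⊆ D) (hC : C ⊆ D) :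
    ∃ R, C ⊆ R ∧ R ⊆ D ∧ Tri G a A b B c R ∧ Conn G (D \ R) := by
  classical
  let F : Finset V := D.filter fun x => x ≠ c ∧ Off G c a A x ∧ Off G c b B x
  let R : Finset V := F.filter fun x => RIn G F c x
  have hRF : ∀ x ∈ R, x ∈ D ∧ x ≠ c ∧ Off G c a A x ∧ Off G c b B x := fun x hx =>
    Finset.mem_filter.1 (Finset.mem_filter.1 hx).1
  have hCF : C ⊆ F := fun x hx => Finset.mem_filter.2
    ⟨hC hx, fun he => h.rc.1 (he ▸ hx), h.ac.2 x hx, h.bc.2 x hx⟩
  have hRR : ∀ x, RIn G F c x → RIn G R c x := by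
    intro x hx
    induction hx with
    | refl => exact RIn.refl _ _
    | @tail y z h1 h2 ih =>
      exact ih.tail h2.1 (Finset.mem_filter.2 ⟨h2.2, RIn.tail h1 h2.1 h2.2⟩)
  have hsep : ∀ {a : V} {A : Finset V}, Sep G a A c C → (∀ x ∈ R, Off G c a A x) →
      Sep G a A c R := fun hs hx =>
    ⟨fun x hxA => ⟨fun y hy => ((hx y hy).1 x hxA).symm, (hs.1 x hxA).2⟩, hx⟩
  have hcE : c ∈ D \ R := Finset.mem_sdiff.2 ⟨hc, fun hx => (hRF c hx).2.1 rfl⟩
  have hside : ∀ {a : V} {A : Finset V}, a ∈ D → A ⊆ D → (a = c ∨ G.Adj c a) → Br G a A →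
      (∀ x ∈ R, Off G c a A x) → ∀ x ∈ D \ R, x ≠ c → ¬ Off G c a A x → RIn G (D \ R) c x := by
    intro a A ha hA hac hr hoff x hx hxc hno
    have haE : a ∈ D \ R := Finset.mem_sdiff.2 ⟨ha, fun hx => (hoff a hx).2.1 rfl⟩
    have h1 : RIn G (D \ R) c a := by
      rcases hac with rfl | hac
      · exact RIn.refl _ _
      · exact (RIn.refl _ _).tail hac haE
    have hAE : A ⊆ D \ R := fun y hy =>
      Finset.mem_sdiff.2 ⟨hA hy, fun hy' => ((hoff y hy').1 y hy).1 rfl⟩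
    by_contra hcon
    refine hno ⟨fun y hy => ⟨?_, fun hxy => ?_⟩, ?_, fun _ hxa => ?_⟩
    · rintro rfl; exact hcon (h1.trans ((hr.2 x hy).mono hAE))
    · exact hcon ((h1.trans ((hr.2 y hy).mono hAE)).tail hxy.symm hx)
    · rintro rfl; exact hcon h1
    · exact hcon (h1.tail hxa.symm hx)
  refine ⟨R, fun x hx => Finset.mem_filter.2 ⟨hCF hx, (h.rc.2 x hx).mono hCF⟩,
    fun x hx => (hRF x hx).1,
    ⟨h.base, h.ab, hsep h.bc fun x hx => (hRF x hx).2.2.2,
      hsep h.ac fun x hx => (hRF x hx).2.2.1, h.ra, h.rb,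
      fun hx => (hRF c hx).2.1 rfl, fun x hx => hRR x (Finset.mem_filter.1 hx).2⟩, ?_⟩
  refine conn_of_root hcE fun x hx => ?_
  have key : ∀ x, RIn G D c x → x ∈ D \ R → RIn G (D \ R) c x := by
    intro x hx
    induction hx with
    | refl => exact fun _ => RIn.refl _ _
    | @tail y z h1 h2 ih =>
      intro hz
      by_cases hzc : z = c
      · rw [hzc]; exact RIn.refl _ _
      by_cases h3 : Off G c a A z
      · by_cases h4 : Off G c b B z
        · have hzF : z ∈ F := Finset.mem_filter.2 ⟨h2.2, hzc, h3, h4⟩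
          by_cases hy : y ∈ R
          · exact absurd (Finset.mem_filter.2
              ⟨hzF, RIn.tail (Finset.mem_filter.1 hy).2 h2.1 hzF⟩) (Finset.mem_sdiff.1 hz).2
          · have hyD : y ∈ D := by
              rcases RIn.mem h1 with rfl | h
              · exact hc
              · exact h
            exact (ih (Finset.mem_sdiff.2 ⟨hyD, hy⟩)).tail h2.1 hz
        · refine hside hb hB ?_ h.rb (fun x hx => (hRF x hx).2.2.2) z hz hzc h4
          rcases h.base with h | h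
          · exact Or.inl h.2
          · exact Or.inr h.2.1.symm
      · refine hside ha hA ?_ h.ra (fun x hx => (hRF x hx).2.2.1) z hz hzc h3
        rcases h.base with h | h
        · exact Or.inl (h.1.trans h.2)
        · exact Or.inr h.2.2.symm
  exact key x (hD c hc x (Finset.mem_sdiff.1 hx).1) hx

end Pool.Agent.P.MP_8b4774_co.Rep
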