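import Pool.Agent.P.MP_8b4774_co.RepB

set_option autoImplicit false

namespace Pool.Agent.P.MP_8b4774_co.Rep

open Finset

variable {V : Type} (G : SimpleGraph V) [DecidableEq V] [DecidableRel G.Adj]

def deg (D : Finset V) (v : V) : ℕ := (D.filter (G.Adj v)).card

def Phi (D : Finset V) : ℕ := ∑ v ∈ D, deg G D v ^ 2

def Ed (D : Finset V) : ℕ := ∑ v ∈ D, deg G D v

variable {G}

theorem deg_insert {E : Finset V} {q : V} (hq : q ∉ E) (w : V) :
    deg G (insert q E) w = deg G E w + if G.Adj w q then 1 else 0 := by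
  unfold deg
  rw [filter_insert]
  split_ifs with h
  · rw [card_insert_of_notMem (fun h' => hq (mem_filter.1 h').1)]
  · rfl

omit [DecidableEq V] in
theorem deg_mono {E D : Finset V} (h : E ⊆ D) (w : V) : deg G E w ≤ deg G D w :=
  card_le_card (filter_subset_filter _ h)

theorem Phi_insert {E : Finset V} {q : V} (hq : q ∉ E) :
    Phi G (insert q E) =
      Phi G E + deg G E q ^ 2 + ∑ w ∈ E.filter (G.Adj q), (2 * deg G E w + 1) := by
  unfold Phi
  rw [sum_insert hq, deg_insert hq q, if_neg (G.loopless.1 q), sum_filter]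
  have : ∑ v ∈ E, deg G (insert q E) v ^ 2 =
      ∑ v ∈ E, (deg G E v ^ 2 + if G.Adj q v then 2 * deg G E v + 1 else 0) := by
    refine sum_congr rfl fun v _ => ?_
    rw [deg_insert hq v]
    by_cases h : G.Adj v q
    · rw [if_pos h, if_pos h.symm]; ring
    · rw [if_neg h, if_neg (fun h' => h h'.symm)]; ring
  rw [this, sum_add_distrib]; ring

theorem Ed_insert {E : Finset V} {q : V} (hq : q ∉ E) :
    Ed G (insert q E) = Ed G E + 2 * deg G E q := by
  unfold Ed
  rw [sum_insert hq, deg_insert hq q, if_neg (G.loopless.1 q)]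
  have : ∑ v ∈ E, deg G (insert q E) v = ∑ v ∈ E, (deg G E v + if G.Adj q v then 1 else 0) :=
    sum_congr rfl fun v _ => by rw [deg_insert hq v]; simp only [G.adj_comm v q]
  rw [this, sum_add_distrib, ← card_filter]
  show _ + 0 + (_ + deg G E q) = _
  ring

theorem Phi_pendant {E : Finset V} {q l : V} (hq : q ∉ E) (hl : l ∈ E) (ha : G.Adj l q)
    (hn : ∀ y ∈ E, y ≠ l → ¬ G.Adj q y) :
    deg G E q = 1 ∧ Phi G (insert q E) = Phi G E + 2 + 2 * deg G E l := by
  have h1 : E.filter (G.Adj q) = {l} := by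
    ext y
    simp only [mem_filter, mem_singleton]
    constructor
    · rintro ⟨h1, h2⟩
      by_contra h3
      exact hn y h1 h3 h2
    · rintro rfl; exact ⟨hl, ha.symm⟩
  have h2 : deg G E q = 1 := by unfold deg; rw [h1]; simp
  refine ⟨h2, ?_⟩
  rw [Phi_insert hq, h1, h2, sum_singleton]; ring

omit [DecidableEq V] in
theorem deg_pos {E : Finset V} {x y : V} (hy : y ∈ E) (h : G.Adj x y) : 1 ≤ deg G E x :=
  card_pos.2 ⟨y, mem_filter.2 ⟨hy, h⟩⟩

omit [DecidableEq V] in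
theorem two_le_deg {E : Finset V} {x y z : V} (hy : y ∈ E) (hz : z ∈ E) (hne : y ≠ z)
    (h : G.Adj x y) (h' : G.Adj x z) : 2 ≤ deg G E x :=
  one_lt_card.2 ⟨y, mem_filter.2 ⟨hy, h⟩, z, mem_filter.2 ⟨hz, h'⟩, hne⟩

omit [DecidableEq V] in
theorem Conn.deg_pos {E : Finset V} (h : Conn G E) {y z : V} (hy : y ∈ E) (hz : z ∈ E)
    (hne : y ≠ z) {x : V} (hx : x ∈ E) : 1 ≤ deg G E x := by
  by_cases hxy : y = x
  · obtain ⟨w, hw, ha⟩ := (h x hx z hz).first (fun h' => hne (hxy.trans h'.symm))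
    exact Rep.deg_pos hw ha
  · obtain ⟨w, hw, ha⟩ := (h x hx y hy).first hxy
    exact Rep.deg_pos hw ha

theorem deg_erase_self (D : Finset V) (l : V) : deg G (D.erase l) l = deg G D l := by
  unfold deg
  congr 1
  ext y
  simp only [mem_filter, mem_erase]
  exact ⟨fun h => ⟨h.1.2, h.2⟩, fun h => ⟨⟨h.2.ne.symm, h.1⟩, h.2⟩⟩

theorem Ed_erase {D : Finset V} {l : V} (hl : l ∈ D) :
    Ed G D = Ed G (D.erase l) + 2 * deg G D l := by
  have h1 := Ed_insert (G := G) (notMem_erase l D)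
  rwa [insert_erase hl, deg_erase_self] at h1

/-- cost of removing a vertex that is not a cut vertex -/
theorem Phi_erase {D : Finset V} {l : V} (hl : l ∈ D) (hc : Conn G (D.erase l)) {y z : V}
    (hy : y ∈ D.erase l) (hz : z ∈ D.erase l) (hne : y ≠ z) :
    Phi G (D.erase l) + deg G D l ^ 2 + 3 * deg G D l ≤ Phi G D ∧
      ∀ w ∈ D.erase l, G.Adj l w →
        Phi G (D.erase l) + deg G D l ^ 2 + (2 * deg G (D.erase l) w + 1) ≤ Phi G D := by
  have h1 := Phi_insert (G := G) (notMem_erase l D)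
  rw [insert_erase hl, deg_erase_self] at h1
  constructor
  · have h2 : ((D.erase l).filter (G.Adj l)).card • 3 ≤
        ∑ w ∈ (D.erase l).filter (G.Adj l), (2 * deg G (D.erase l) w + 1) :=
      card_nsmul_le_sum _ _ _ fun w hw => by
        have := hc.deg_pos hy hz hne (mem_filter.1 hw).1
        omega
    have h3 : ((D.erase l).filter (G.Adj l)).card = deg G D l := deg_erase_self D l
    rw [h3, smul_eq_mul] at h2
    omega
  · intro w hw ha
    have h2 := single_le_sum (f := fun w => 2 * deg G (D.erase l) w + 1)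
      (s := (D.erase l).filter (G.Adj l)) (fun _ _ => Nat.zero_le _) (mem_filter.2 ⟨hw, ha⟩)
    omega

omit [DecidableEq V] [DecidableRel G.Adj] in
/-- the base vertex of the third branch has two neighbours on the side of the other branches -/
theorem Tri.two_nbrs {a b c : V} {A B C : Finset V} (h : Tri G a A b B c C) (hA : A.Nonempty)
    (hB : B.Nonempty) :
    ∃ y z, y ≠ z ∧ G.Adj c y ∧ G.Adj c z ∧ (y = a ∨ y ∈ A) ∧ (z = b ∨ z ∈ B) := by
  rcases h.base with hb | hb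
  · obtain ⟨x, hx⟩ := hA
    obtain ⟨x', hx'⟩ := hB
    obtain ⟨y, hy, hy'⟩ := (h.ra.2 x hx).first (fun he => h.ra.1 (he ▸ hx))
    obtain ⟨z, hz, hz'⟩ := (h.rb.2 x' hx').first (fun he => h.rb.1 (he ▸ hx'))
    exact ⟨y, z, ((h.ab.1 y hy).1 z hz).1, (hb.1.trans hb.2) ▸ hy', hb.2 ▸ hz', Or.inr hy,
      Or.inr hz⟩
  · exact ⟨a, b, hb.1.ne, hb.2.2.symm, hb.2.1.symm, Or.inl rfl, Or.inl rfl⟩

variable (G)

def CD (r : ℕ) (D : Finset V) : Prop :=
  D.Nonempty ∧ Conn G D ∧ ∀ v, ∃ x ∈ D, G.dist x v ≤ r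

structure Good (r : ℕ) (D : Finset V) : Prop where
  cd : CD G r D
  min : ∀ D', CD G r D' → D.card ≤ D'.card
  emin : ∀ D', CD G r D' → D'.card ≤ D.card → Ed G D ≤ Ed G D'

structure Opt (r : ℕ) (D : Finset V) : Prop where
  good : Good G r D
  phi : ∀ D', CD G r D' → D'.card ≤ D.card → Ed G D' ≤ Ed G D → Phi G D ≤ Phi G D'

/-- a walk of length at most `r` from `x` to a vertex that `E` does not dominate -/
structure Spike (r : ℕ) (E : Finset V) (x : V) (Q : ℕ → V) (d : ℕ) : Prop where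
  zero : Q 0 = x
  chain : Chain G Q d
  le : d ≤ r
  far : ∀ y ∈ E, r < G.dist y (Q d)

def pts (Q : ℕ → V) (d : ℕ) : Finset V := (Icc 1 d).image Q

variable {G}

omit [DecidableEq V] in
theorem Good.of_le {r : ℕ} {D D' : Finset V} (h : Good G r D) (h1 : CD G r D')
    (h2 : D'.card ≤ D.card) (h3 : Ed G D' ≤ Ed G D) : Good G r D' :=
  ⟨h1, fun E hE => h2.trans (h.min E hE), fun E hE hle => h3.trans (h.emin E hE (hle.trans h2))⟩

omit [DecidableRel G.Adj] in
theorem mem_pts {Q : ℕ → V} {d : ℕ} {x : V} : x ∈ pts Q d ↔ ∃ s, 1 ≤ s ∧ s ≤ d ∧ Q s = x := by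
  simp [pts, and_assoc]

omit [DecidableEq V] [DecidableRel G.Adj] in
theorem not_ap_dist {x y : V} (h : ¬ Ap G x y) : G.dist x y ≤ 1 := by
  by_cases h1 : x = y
  · rw [h1]; simp
  · have : G.Adj x y := by
      by_contra h2
      exact h ⟨h1, h2⟩
    exact (SimpleGraph.dist_eq_one_iff_adj.2 this).le

omit [DecidableRel G.Adj] in
theorem Spike.ap (hG : G.Connected) {r d : ℕ} {E : Finset V} {x : V} {Q : ℕ → V}
    (h : Spike G r E x Q d) {z : V} (hz : z ∈ pts Q d) {y : V} (hy : y ∈ E) : Ap G z y := by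
  obtain ⟨s, h1, h2, rfl⟩ := mem_pts.1 hz
  by_contra hc
  have h3 := not_ap_dist (fun h' : Ap G y (Q s) => hc h'.symm)
  have h4 := (h.chain.dist_le h2 le_rfl).2
  have h5 := hG.dist_triangle (u := y) (v := Q s) (w := Q d)
  have h6 := h.far y hy
  have h7 := h.le
  omega

omit [DecidableRel G.Adj] in
/-- if two spikes touch, the first inner vertex of one dominates the end of the other -/
theorem Spike.link (hG : G.Connected) {r d d' : ℕ} {E E' : Finset V} {x x' : V} {Q Q' : ℕ → V}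
    (h : Spike G r E x Q d) (h' : Spike G r E' x' Q' d') (hx : x' ∈ E) {z z' : V}
    (hz : z ∈ pts Q d) (hz' : z' ∈ pts Q' d') (hc : ¬ Ap G z z') : G.dist (Q 1) (Q' d') ≤ r := by
  obtain ⟨t, t1, t2, rfl⟩ := mem_pts.1 hz
  obtain ⟨s, s1, s2, rfl⟩ := mem_pts.1 hz'
  have h1 := not_ap_dist hc
  have h1' : G.dist (Q' s) (Q t) ≤ 1 := by rw [SimpleGraph.dist_comm]; exact h1
  have h2 := (h.chain.dist_le t2 le_rfl).2
  have h3 := (h.chain.dist_le t1 t2).2
  have h4 := (h'.chain.dist_le s2 le_rfl).2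
  have h5 := (h'.chain.dist_le (Nat.zero_le s) s2).2
  rw [h'.zero] at h5
  have h6 := h.far x' hx
  have h7 := hG.dist_triangle (u := x') (v := Q' s) (w := Q d)
  have h8 := hG.dist_triangle (u := Q' s) (v := Q t) (w := Q d)
  have h9 := hG.dist_triangle (u := Q 1) (v := Q t) (w := Q' d')
  have h10 := hG.dist_triangle (u := Q t) (v := Q' s) (w := Q' d')
  have := h.le
  have := h'.le
  omega

omit [DecidableEq V] [DecidableRel G.Adj] in
theorem exists_spike (hG : G.Connected) {r : ℕ} {E : Finset V} {x u : V}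
    (hx : G.dist x u ≤ r) (hu : ∀ y ∈ E, r < G.dist y u) :
    ∃ Q d, Spike G r E x Q d ∧ Q d = u := by
  obtain ⟨p, h0, hn, hc⟩ := exists_geo (hG.preconnected x u)
  exact ⟨p, _, ⟨h0, hc, hx, fun y hy => by rw [hn]; exact hu y hy⟩, hn⟩

omit [DecidableRel G.Adj] in
theorem Spike.br {r d : ℕ} {E Y : Finset V} {x b : V} {Q : ℕ → V} (hG : G.Connected)
    (h : Spike G r E x Q d) (hb : Br G b Y) (hx : x ∈ Y) (hbE : b ∈ E) :
    Br G b (Y ∪ pts Q d) ∧ ∃ u ∈ Y ∪ pts Q d, r + 1 ≤ G.dist b u := by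
  have key : ∀ s, s ≤ d → RIn G (Y ∪ pts Q d) b (Q s) := by
    intro s
    induction s with
    | zero => intro _; rw [h.zero]; exact (hb.2 x hx).mono subset_union_left
    | succ s ih =>
      intro hs
      exact (ih (by omega)).tail (h.chain s (by omega))
        (mem_union_right _ (mem_pts.2 ⟨s + 1, by omega, hs, rfl⟩))
  refine ⟨⟨fun hm => ?_, fun y hy => ?_⟩, Q d, ?_, h.far b hbE⟩
  · rcases mem_union.1 hm with h' | h'
    · exact hb.1 h'
    · exact (h.ap hG h' hbE).1 rfl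
  · rcases mem_union.1 hy with h' | h'
    · exact (hb.2 y h').mono subset_union_left
    · obtain ⟨s, _, h2, rfl⟩ := mem_pts.1 h'
      exact key s h2
  · rcases Nat.eq_zero_or_pos d with rfl | hd
    · rw [h.zero]; exact mem_union_left _ hx
    · exact mem_union_right _ (mem_pts.2 ⟨d, hd, le_rfl, rfl⟩)

omit [DecidableRel G.Adj] in
theorem Sep.union {b b' : V} {Y Y' P P' : Finset V} (h : Sep G b Y b' Y')
    (h1 : ∀ x ∈ P, ∀ y, (y = b' ∨ y ∈ Y') → Ap G x y)
    (h2 : ∀ x ∈ P', ∀ y, (y = b ∨ y ∈ Y) → Ap G x y)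
    (h3 : ∀ x ∈ P, ∀ y ∈ P', Ap G x y) : Sep G b (Y ∪ P) b' (Y' ∪ P') := by
  constructor
  · intro x hx
    rcases mem_union.1 hx with hx | hx
    · refine ⟨fun y hy => ?_, (h.1 x hx).2⟩
      rcases mem_union.1 hy with hy | hy
      · exact (h.1 x hx).1 y hy
      · exact (h2 y hy x (Or.inr hx)).symm
    · refine ⟨fun y hy => ?_, (h1 x hx b' (Or.inl rfl)).1, fun _ => (h1 x hx b' (Or.inl rfl)).2⟩
      rcases mem_union.1 hy with hy | hy
      · exact h1 x hx y (Or.inr hy)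
      · exact h3 x hx y hy
  · intro x hx
    rcases mem_union.1 hx with hx | hx
    · refine ⟨fun y hy => ?_, (h.2 x hx).2⟩
      rcases mem_union.1 hy with hy | hy
      · exact (h.2 x hx).1 y hy
      · exact (h1 y hy x (Or.inr hx)).symm
    · refine ⟨fun y hy => ?_, (h2 x hx b (Or.inl rfl)).1, fun _ => (h2 x hx b (Or.inl rfl)).2⟩
      rcases mem_union.1 hy with hy | hy
      · exact h2 x hx y (Or.inr hy)
      · exact (h3 y hy x hx).symm

omit [DecidableEq V] [DecidableRel G.Adj] in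
theorem Sep.mono {b b' : V} {Y Y' Z Z' : Finset V} (h : Sep G b Y b' Y') (h1 : Z ⊆ Y)
    (h2 : Z' ⊆ Y') : Sep G b Z b' Z' :=
  ⟨fun x hx => ⟨fun y hy => (h.1 x (h1 hx)).1 y (h2 hy), (h.1 x (h1 hx)).2⟩,
   fun x hx => ⟨fun y hy => (h.2 x (h2 hx)).1 y (h1 hy), (h.2 x (h2 hx)).2⟩⟩

omit [DecidableEq V] [DecidableRel G.Adj] in
theorem Sep.ne {b b' : V} {Y Y' : Finset V} (h : Sep G b Y b' Y') {l y : V} (hl : l ∈ Y)
    (hy : y = b' ∨ y ∈ Y') : y ≠ l := by
  rcases hy with rfl | hy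
  · exact (h.1 l hl).2.1.symm
  · exact ((h.1 l hl).1 y hy).1.symm

end Pool.Agent.P.MP_8b4774_co.Rep
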