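import Pool.Agent.P.MP_8b4774_co.RepC

set_option autoImplicit false

namespace Pool.Agent.P.MP_8b4774_co.Rep

open Finset

variable {V : Type} {G : SimpleGraph V} [DecidableEq V] [DecidableRel G.Adj] {r : ℕ}

def Free (G : SimpleGraph V) (k : ℕ) : Prop :=
  ¬ (Nonempty (spider (fun _ => k) ↪g G) ∨ Nonempty (genNet (fun _ => k) ↪g G))

structure InD (D : Finset V) (a : V) (A : Finset V) (b : V) (B : Finset V) (c : V) (C : Finset V) :
    Prop where
  a : a ∈ D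
  b : b ∈ D
  c : c ∈ D
  A : A ⊆ D
  B : B ⊆ D
  C : C ⊆ D

omit [DecidableEq V] in
theorem mem_of_or {D Y : Finset V} {b y : V} (hb : b ∈ D) (hY : Y ⊆ D) (h : y = b ∨ y ∈ Y) :
    y ∈ D := by
  rcases h with rfl | h
  · exact hb
  · exact hY h

omit [DecidableRel G.Adj] in
theorem priv_spike (hG : G.Connected) (hr : 1 ≤ r) {D : Finset V} (hD : CD G r D) {l y u : V}
    (hl : l ∈ D) (hy : y ∈ D.erase l) (hu : ∀ x ∈ D.erase l, r < G.dist x u) :
    ∃ Q d, Spike G r (D.erase l) l Q d ∧ 1 ≤ d ∧ Q d = u := by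
  obtain ⟨x, hx, hx'⟩ := hD.2.2 u
  have hxl : x = l := by
    by_contra h
    exact absurd hx' (not_le.2 (hu x (mem_erase.2 ⟨h, hx⟩)))
  subst hxl
  obtain ⟨Q, d, hQ, hd⟩ := exists_spike hG hx' hu
  refine ⟨Q, d, hQ, ?_, hd⟩
  rcases Nat.eq_zero_or_pos d with rfl | h
  · obtain ⟨w, hw, ha⟩ := (hD.2.1 x hl y (mem_erase.1 hy).2).first (mem_erase.1 hy).1
    have h1 := hQ.far w (mem_erase.2 ⟨ha.ne.symm, hw⟩)
    rw [hQ.zero, SimpleGraph.dist_eq_one_iff_adj.2 ha.symm] at h1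
    omega
  · exact h

theorem Good.spike (hG : G.Connected) (hr : 1 ≤ r) {D : Finset V} (hD : Good G r D) {l y : V}
    (hl : l ∈ D) (hy : y ∈ D.erase l) (hc : Conn G (D.erase l)) :
    ∃ Q d, Spike G r (D.erase l) l Q d ∧ 1 ≤ d := by
  by_cases h : ∃ u, ∀ x ∈ D.erase l, r < G.dist x u
  · obtain ⟨u, hu⟩ := h
    obtain ⟨Q, d, h1, h2, _⟩ := priv_spike hG hr hD.cd hl hy hu
    exact ⟨Q, d, h1, h2⟩
  · push Not at h
    have h1 := hD.min _ ⟨⟨y, hy⟩, hc, h⟩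
    have h2 := card_erase_lt_of_mem hl
    omega

omit [DecidableRel G.Adj] in
theorem Spike.first (hG : G.Connected) {D : Finset V} {l : V} {Q : ℕ → V} {d : ℕ}
    (h : Spike G r (D.erase l) l Q d) (hd : 1 ≤ d) :
    G.Adj l (Q 1) ∧ Q 1 ∈ pts Q d ∧ Q 1 ∉ D ∧ ∀ y ∈ D, y ≠ l → Ap G (Q 1) y := by
  have h1 : G.Adj l (Q 1) := by
    have := h.chain 0 hd
    rwa [h.zero] at this
  have h2 : Q 1 ∈ pts Q d := mem_pts.2 ⟨1, le_rfl, hd, rfl⟩
  have h3 : ∀ y ∈ D, y ≠ l → Ap G (Q 1) y := fun y hy hne => h.ap hG h2 (mem_erase.2 ⟨hne, hy⟩)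
  exact ⟨h1, h2, fun hm => (h3 _ hm h1.ne.symm).1 rfl, h3⟩

omit [DecidableRel G.Adj] in
theorem exchange (hG : G.Connected) (hf : Free G (r + 1)) {D A B R : Finset V} {a b c la lb : V}
    (hD : CD G r D) (h : Tri G a A b B c R) (hi : InD D a A b B c R) (hc : Conn G (D \ R))
    (hla : la ∈ A) (hlb : lb ∈ B) {Qa Qb : ℕ → V} {da db : ℕ}
    (ha : Spike G r (D.erase la) la Qa da) (ha' : 1 ≤ da)
    (hb : Spike G r (D.erase lb) lb Qb db) (hb' : 1 ≤ db)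
    (hU : ∀ z ∈ pts Qa da, ∀ z' ∈ pts Qb db, Ap G z z') :
    CD G r (insert (Qb 1) (insert (Qa 1) (D \ R))) := by
  have hE : ∀ {a : V} {A : Finset V}, a ∈ D → A ⊆ D → Sep G a A c R → ∀ y, (y = a ∨ y ∈ A) →
      y ∈ D \ R := fun ha hA hs y hy =>
    mem_sdiff.2 ⟨mem_of_or ha hA hy, fun hm => hs.symm.ne hm hy rfl⟩
  refine ⟨insert_nonempty _ _, (hc.insert (hE hi.a hi.A h.ac la (Or.inr hla))
    (ha.first hG ha').1).insert (mem_insert_of_mem (hE hi.b hi.B h.bc lb (Or.inr hlb)))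
    (hb.first hG hb').1, fun v => ?_⟩
  by_contra hcon
  push Not at hcon
  have hv : ∀ y ∈ D \ R, r < G.dist y v := fun y hy =>
    hcon y (mem_insert_of_mem (mem_insert_of_mem hy))
  obtain ⟨x, hx, hx'⟩ := hD.2.2 v
  have hxR : x ∈ R := by
    by_contra hn
    exact absurd hx' (not_le.2 (hv x (mem_sdiff.2 ⟨hx, hn⟩)))
  obtain ⟨Q, d, hQ, rfl⟩ := exists_spike hG hx' hv
  have e1 : ∀ {a l b : V} {A B : Finset V}, b ∈ D → B ⊆ D → Sep G a A b B → l ∈ A →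
      ∀ y, (y = b ∨ y ∈ B) → y ∈ D.erase l := fun hb hB hs hl y hy =>
    mem_erase.2 ⟨hs.ne hl hy, mem_of_or hb hB hy⟩
  have ba := ha.br hG h.ra hla (mem_erase.2 ⟨fun he => h.ra.1 (he ▸ hla), hi.a⟩)
  have bb := hb.br hG h.rb hlb (mem_erase.2 ⟨fun he => h.rb.1 (he ▸ hlb), hi.b⟩)
  have bc := hQ.br hG h.rc hxR (mem_sdiff.2 ⟨hi.c, h.rc.1⟩)
  refine hf (Tri.embed (A := A ∪ pts Qa da) (B := B ∪ pts Qb db) (C := R ∪ pts Q d)
    ⟨h.base, ?_, ?_, ?_, ba.1, bb.1, bc.1⟩ ba.2 bb.2 bc.2)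
  · exact h.ab.union (fun z hz y hy => ha.ap hG hz (e1 hi.b hi.B h.ab hla y hy))
      (fun z hz y hy => hb.ap hG hz (e1 hi.a hi.A h.ab.symm hlb y hy)) hU
  · refine h.bc.union (fun z hz y hy => hb.ap hG hz (e1 hi.c hi.C h.bc hlb y hy))
      (fun z hz y hy => hQ.ap hG hz (hE hi.b hi.B h.bc y hy)) fun z hz z' hz' => ?_
    by_contra hn
    exact absurd (hb.link hG hQ (e1 hi.c hi.C h.bc hlb x (Or.inr hxR)) hz hz' hn)
      (not_le.2 (hcon _ (mem_insert_self _ _)))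
  · refine h.ac.union (fun z hz y hy => ha.ap hG hz (e1 hi.c hi.C h.ac hla y hy))
      (fun z hz y hy => hQ.ap hG hz (hE hi.a hi.A h.ac y hy)) fun z hz z' hz' => ?_
    by_contra hn
    exact absurd (ha.link hG hQ (e1 hi.c hi.C h.ac hla x (Or.inr hxR)) hz hz' hn)
      (not_le.2 (hcon _ (mem_insert_of_mem (mem_insert_self _ _))))

omit [DecidableRel G.Adj] in
theorem swap (hG : G.Connected) (hr : 1 ≤ r) {D : Finset V} {la lb : V} (hD : CD G r D)
    (hla : la ∈ D) (hlb : lb ∈ D) (hne : la ≠ lb) (hc : Conn G (D.erase lb)) {Qa : ℕ → V} {da : ℕ}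
    (ha : Spike G r (D.erase la) la Qa da) (ha' : 1 ≤ da)
    (hL : ∀ Qb db, Spike G r (D.erase lb) lb Qb db → 1 ≤ db →
      ¬ ∀ z ∈ pts Qa da, ∀ z' ∈ pts Qb db, Ap G z z') :
    CD G r (insert (Qa 1) (D.erase lb)) := by
  have hm : la ∈ D.erase lb := mem_erase.2 ⟨hne, hla⟩
  refine ⟨insert_nonempty _ _, hc.insert hm (ha.first hG ha').1, fun v => ?_⟩
  by_contra hcon
  push Not at hcon
  obtain ⟨Q, d, hQ, hd, rfl⟩ := priv_spike hG hr hD hlb hm
    (fun x hx => hcon x (mem_insert_of_mem hx))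
  refine hL Q d hQ hd fun z hz z' hz' => ?_
  by_contra hn
  exact absurd (ha.link hG hQ (mem_erase.2 ⟨hne.symm, hlb⟩) hz hz' hn)
    (not_le.2 (hcon _ (mem_insert_self _ _)))

theorem eq_of_deg_le_one {E : Finset V} {x y z : V} (h : deg G E x ≤ 1) (hy : y ∈ E) (hz : z ∈ E)
    (h1 : G.Adj x y) (h2 : G.Adj x z) : y = z := by
  by_contra hne
  have := two_le_deg hy hz hne h1 h2
  omega

theorem conn_erase_leaf {E : Finset V} (hc : Conn G E) {w b : V} (h : deg G E w ≤ 1) (hb : b ∈ E)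
    (hw : w ∈ E) (hne : b ≠ w) : Conn G (E.erase w) := by
  obtain ⟨z, hz, hz'⟩ := (hc w hw b hb).first hne
  refine conn_of_root (mem_erase.2 ⟨hne, hb⟩) fun x hx => ?_
  exact (RIn.erase_leaf (w := z) hne
    (fun y hy ha => eq_of_deg_le_one h (mem_of_or hb subset_rfl hy) hz ha hz')
    (hc b hb x (mem_erase.1 hx).2)).1 (mem_erase.1 hx).1

/-- there are two spikes that do not touch -/
def Unl (G : SimpleGraph V) (r : ℕ) (D : Finset V) (la lb qa qb : V) : Prop :=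
  ∃ Qa da Qb db, Spike G r (D.erase la) la Qa da ∧ 1 ≤ da ∧
    Spike G r (D.erase lb) lb Qb db ∧ 1 ≤ db ∧
    (∀ z ∈ pts Qa da, ∀ z' ∈ pts Qb db, Ap G z z') ∧ Qa 1 = qa ∧ Qb 1 = qb

/-- `q` is a new vertex whose only neighbour in `D` is `l` -/
def Pend (G : SimpleGraph V) (D : Finset V) (l q : V) : Prop :=
  G.Adj l q ∧ q ∉ D ∧ ∀ y ∈ D, y ≠ l → Ap G q y

omit [DecidableRel G.Adj] in
theorem Unl.pend (hG : G.Connected) {D : Finset V} {la lb qa qb : V} (h : Unl G r D la lb qa qb) :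
    Pend G D la qa ∧ Pend G D lb qb ∧ Ap G qa qb := by
  obtain ⟨Qa, da, Qb, db, ha, ha', hb, hb', hU, rfl, rfl⟩ := h
  obtain ⟨a1, a2, a3, a4⟩ := ha.first hG ha'
  obtain ⟨b1, b2, b3, b4⟩ := hb.first hG hb'
  exact ⟨⟨a1, a3, a4⟩, ⟨b1, b3, b4⟩, hU _ a2 _ b2⟩

/-- the unlinked case -/
theorem Good.unl (hG : G.Connected) (hf : Free G (r + 1)) {D A B C : Finset V}
    {a b c la lb qa qb : V} (hD : Good G r D) (h : Tri G a A b B c C) (hi : InD D a A b B c C)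
    (hla : la ∈ A) (hlb : lb ∈ B) (hU : Unl G r D la lb qa qb) :
    C.card ≤ 2 ∧ ∀ m ∈ C, ∀ l ∈ C, m ≠ l → G.Adj c m →
      deg G D l = 1 ∧ deg G (D.erase l) m = 1 ∧ 3 ≤ deg G D c ∧ Conn G ((D.erase l).erase m) ∧
      CD G r (insert qb (insert qa ((D.erase l).erase m))) ∧
      (insert qb (insert qa ((D.erase l).erase m))).card ≤ D.card ∧
      Ed G (insert qb (insert qa ((D.erase l).erase m))) ≤ Ed G D ∧
      Phi G (insert qb (insert qa ((D.erase l).erase m))) + 2 * deg G D c ≤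
        Phi G D + 2 * deg G D la + 2 * deg G D lb := by
  obtain ⟨⟨a1, a3, a4⟩, ⟨b1, b3, b4⟩, hq⟩ := hU.pend hG
  obtain ⟨Qa, da, Qb, db, ha, ha', hb, hb', hU, rfl, rfl⟩ := hU
  obtain ⟨R, hCR, hRD, hT, hc⟩ := h.enlarge hD.cd.2.1 hi.a hi.b hi.c hi.A hi.B hi.C
  have hcd := exchange hG hf hD.cd hT ⟨hi.a, hi.b, hi.c, hi.A, hi.B, hRD⟩ hc hla hlb ha ha' hb hb' hU
  have c1 := card_insert_le (Qb 1) (insert (Qa 1) (D \ R))
  have c2 := card_insert_le (Qa 1) (D \ R)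
  have c3 := card_sdiff_of_subset hRD
  have c4 := card_le_card hRD
  have c5 := hD.min _ hcd
  have c6 := card_le_card hCR
  refine ⟨by omega, fun m hm l hl hml hcm => ?_⟩
  have hR : ({m, l} : Finset V) = R := eq_of_subset_of_card_le
    (insert_subset (hCR hm) (singleton_subset_iff.2 (hCR hl))) (by rw [card_pair hml]; omega)
  have c7 : R.card = 2 := by rw [← hR, card_pair hml]
  have hE : (D.erase l).erase m = D \ R := by
    ext x; rw [← hR]; simp only [mem_erase, mem_sdiff, mem_insert, mem_singleton]; tauto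
  have hmem : ∀ {a : V} {A : Finset V}, a ∈ D → A ⊆ D → Sep G a A c R → ∀ y, (y = a ∨ y ∈ A) →
      y ∈ D \ R := fun ha hA hs y hy =>
    mem_sdiff.2 ⟨mem_of_or ha hA hy, fun hm => hs.symm.ne hm hy rfl⟩
  have hcE : c ∈ D \ R := mem_sdiff.2 ⟨hi.c, hT.rc.1⟩
  have hmD : m ∈ D.erase l := mem_erase.2 ⟨hml, hi.C hm⟩
  obtain ⟨y, z, hyz, hy, hz, hy', hz'⟩ := hT.two_nbrs ⟨la, hla⟩ ⟨lb, hlb⟩
  have hyE := hmem hi.a hi.A hT.ac y hy'
  have hzE := hmem hi.b hi.B hT.bc z hz'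
  have g1 := two_le_deg hyE hzE hyz hy hz
  have hc1 : Conn G (D.erase l) := by
    have := hc.insert hcE hcm
    rwa [← hE, insert_erase hmD] at this
  have hsub : D \ R ⊆ D.erase l := by rw [← hE]; exact erase_subset _ _
  obtain ⟨p1, p1'⟩ := Phi_erase (hi.C hl) hc1 (hsub hyE) (hsub hzE) hyz
  have p2 := (Phi_erase hmD (hE ▸ hc) (hE ▸ hyE) (hE ▸ hzE) hyz).2 c (hE ▸ hcE) hcm.symm
  have e1 := Ed_erase (G := G) (hi.C hl)
  have e2 := Ed_erase (G := G) hmD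
  have n1 := deg_insert (G := G) (notMem_erase m (D.erase l)) c
  have n2 := deg_insert (G := G) (notMem_erase l D) c
  rw [insert_erase hmD, if_pos hcm, hE] at n1
  rw [insert_erase (hi.C hl)] at n2
  rw [hE] at p2 e2 ⊢
  have g2 : 1 ≤ deg G (D.erase l) m := deg_pos (hsub hcE) hcm.symm
  have g2' : 1 ≤ deg G D l := hD.cd.2.1.deg_pos (hi.C hm) (hi.C hl) hml (hi.C hl)
  have hlaE := hmem hi.a hi.A hT.ac la (Or.inr hla)
  have hlbE := hmem hi.b hi.B hT.bc lb (Or.inr hlb)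
  have hqa : Qa 1 ∉ D \ R := fun hx => a3 (mem_sdiff.1 hx).1
  have hqb : Qb 1 ∉ insert (Qa 1) (D \ R) := fun hx => by
    rcases mem_insert.1 hx with hx | hx
    · exact hq.1 hx.symm
    · exact b3 (mem_sdiff.1 hx).1
  obtain ⟨p3', p3⟩ := Phi_pendant hqa hlaE a1 fun y hy hne => (a4 y (mem_sdiff.1 hy).1 hne).2
  obtain ⟨p4', p4⟩ := Phi_pendant hqb (mem_insert_of_mem hlbE) b1
    (fun y hy hne => by
      rcases mem_insert.1 hy with rfl | hy
      · exact hq.symm.2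
      · exact (b4 y (mem_sdiff.1 hy).1 hne).2)
  have e3 := Ed_insert (G := G) hqa
  have e4 := Ed_insert (G := G) hqb
  rw [deg_insert hqa, if_neg (a4 lb (hi.B hlb) (h.ab.ne hla (Or.inr hlb))).symm.2] at p4
  have g3 := deg_mono (G := G) (sdiff_subset : D \ R ⊆ D) la
  have g4 := deg_mono (G := G) (sdiff_subset : D \ R ⊆ D) lb
  have e5 := hD.emin _ hcd (by omega)
  have g5 : deg G D l = 1 := by omega
  have g6 : deg G (D.erase l) m = 1 := by omega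
  rw [g5] at p1 p1'
  rw [g6] at p2
  refine ⟨g5, g6, by omega, hc, hcd, by omega, by omega, ?_⟩
  by_cases hcl : G.Adj c l
  · have := p1' c (hsub hcE) hcl.symm
    rw [if_pos hcl] at n2
    omega
  · rw [if_neg hcl] at n2
    omega

/-- the linked case -/
theorem Good.lnk (hG : G.Connected) (hr : 1 ≤ r) {D : Finset V} {la lb : V} (hD : Good G r D)
    (hla : la ∈ D) (hlb : lb ∈ D) (hne : la ≠ lb) (ca : Conn G (D.erase la))
    (cb : Conn G (D.erase lb)) (hU : ¬ ∃ qa qb, Unl G r D la lb qa qb) :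
    deg G D lb = 1 ∧ ∃ q, Pend G D la q ∧ CD G r (insert q (D.erase lb)) ∧
      (insert q (D.erase lb)).card = D.card ∧ Ed G (insert q (D.erase lb)) ≤ Ed G D := by
  have m1 : la ∈ D.erase lb := mem_erase.2 ⟨hne, hla⟩
  have m2 : lb ∈ D.erase la := mem_erase.2 ⟨hne.symm, hlb⟩
  obtain ⟨Qa, da, ha, ha'⟩ := hD.spike hG hr hla m2 ca
  have s1 := swap hG hr hD.cd hla hlb hne cb ha ha'
    fun Q d h1 h2 h3 => hU ⟨_, _, Qa, da, Q, d, ha, ha', h1, h2, h3, rfl, rfl⟩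
  obtain ⟨a1, _, a3, a4⟩ := ha.first hG ha'
  have hqa : Qa 1 ∉ D.erase lb := fun hx => a3 (mem_of_mem_erase hx)
  have k1 : (insert (Qa 1) (D.erase lb)).card = D.card := by
    rw [card_insert_of_notMem hqa, card_erase_add_one hlb]
  have p0 := (Phi_pendant hqa m1 a1 fun y hy hne => (a4 y (mem_of_mem_erase hy) hne).2).1
  have e1 := Ed_insert (G := G) hqa
  have e2 := Ed_erase (G := G) hlb
  have e3 := hD.emin _ s1 k1.le
  have g4 := hD.cd.2.1.deg_pos hla hlb hne hlb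
  exact ⟨by omega, Qa 1, ⟨a1, a3, a4⟩, s1, k1, by omega⟩

omit [DecidableRel G.Adj] in
theorem Unl.symm {D : Finset V} {la lb qa qb : V} (h : Unl G r D la lb qa qb) :
    Unl G r D lb la qb qa := by
  obtain ⟨Qa, da, Qb, db, ha, ha', hb, hb', hU, h1, h2⟩ := h
  exact ⟨Qb, db, Qa, da, hb, hb', ha, ha', fun z hz z' hz' => (hU z' hz' z hz).symm, h2, h1⟩

theorem Good.unl_of (hG : G.Connected) (hr : 1 ≤ r) {D : Finset V} {la lb : V} (hD : Good G r D)
    (hla : la ∈ D) (hlb : lb ∈ D) (hne : la ≠ lb) (ca : Conn G (D.erase la))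
    (cb : Conn G (D.erase lb)) (hn : ¬ (deg G D la = 1 ∧ deg G D lb = 1)) :
    ∃ qa qb, Unl G r D la lb qa qb := by
  by_contra hU
  exact hn ⟨(hD.lnk hG hr hlb hla hne.symm cb ca fun ⟨_, _, h⟩ => hU ⟨_, _, h.symm⟩).1,
    (hD.lnk hG hr hla hlb hne ca cb hU).1⟩

omit [DecidableRel G.Adj] in
/-- a pendant vertex joins the first branch -/
theorem Tri.add {D A B C : Finset V} {a b c l q : V} (h : Tri G a A b B c C)
    (hi : InD D a A b B c C) (hl : l ∈ A) (hq : Pend G D l q) : Tri G a (insert q A) b B c C := by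
  have ap1 : ∀ {b : V} {B : Finset V}, b ∈ D → B ⊆ D → Sep G a A b B →
      Sep G a (insert q A) b B := fun hb hB hs => by
    have := hs.union (P := {q}) (P' := ∅)
      (fun x hx y hy => by
        rw [mem_singleton.1 hx]; exact hq.2.2 y (mem_of_or hb hB hy) (hs.ne hl hy))
      (by simp) (by simp)
    rwa [union_empty, union_comm, ← insert_eq] at this
  refine ⟨h.base, ap1 hi.b hi.B h.ab, h.bc, ap1 hi.c hi.C h.ac, ⟨fun hx => ?_, fun x hx => ?_⟩,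
    h.rb, h.rc⟩
  · rcases mem_insert.1 hx with hx | hx
    · exact hq.2.1 (hx ▸ hi.a)
    · exact h.ra.1 hx
  · rcases mem_insert.1 hx with rfl | hx'
    · exact ((h.ra.2 l hl).mono (subset_insert _ _)).tail hq.1 hx
    · exact (h.ra.2 x hx').mono (subset_insert _ _)

end Pool.Agent.P.MP_8b4774_co.Rep
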