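import Pool.Agent.P.MP_8b4774_co.Defs

set_option autoImplicit false

namespace Pool.Agent.P.MP_8b4774_co

/-- The spider with centre `none` and three legs; leg `i` is the path
`none, (i,0), ..., (i, l i - 1)` of length `l i`. -/
def spider (l : Fin 3 → ℕ) : SimpleGraph (Option (Σ i : Fin 3, Fin (l i))) :=
  SimpleGraph.fromRel fun x y =>
    (x = none ∧ ∃ (i : Fin 3) (j : Fin (l i)), j.val = 0 ∧ y = some ⟨i, j⟩) ∨
    (∃ (i : Fin 3) (j j' : Fin (l i)), j.val + 1 = j'.val ∧ x = some ⟨i, j⟩ ∧ y = some ⟨i, j'⟩)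

/-- The triangle `(0,0), (1,0), (2,0)` with the pendant path `(i,0), (i,1), ..., (i, l i)` of
length `l i` at its vertex `(i,0)`. -/
def genNet (l : Fin 3 → ℕ) : SimpleGraph (Σ i : Fin 3, Fin (l i + 1)) :=
  SimpleGraph.fromRel fun x y =>
    (x.2.val = 0 ∧ y.2.val = 0) ∨ (x.1 = y.1 ∧ x.2.val + 1 = y.2.val)

end Pool.Agent.P.MP_8b4774_co
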