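import Pool.Agent.P.MP_8b4774_co.RepD

set_option autoImplicit false

namespace Pool.Agent.P.MP_8b4774_co.Rep

open Finset

variable {V : Type} {G : SimpleGraph V} [DecidableEq V] [DecidableRel G.Adj] {r : ℕ}

omit [DecidableEq V] [DecidableRel G.Adj] in
theorem Br.pair {c : V} {C : Finset V} (h : Br G c C) (h2 : 2 ≤ C.card) :
    ∃ m ∈ C, ∃ l ∈ C, m ≠ l ∧ G.Adj c m := by
  obtain ⟨x, hx⟩ := card_pos.1 (by omega : 0 < C.card)
  obtain ⟨m, hm, ha⟩ := (h.2 x hx).first (fun he => h.1 (he ▸ hx))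
  obtain ⟨l, hl, hne⟩ := exists_mem_ne (by omega : 1 < C.card) m
  exact ⟨m, hm, l, hl, hne.symm, ha⟩

omit [DecidableEq V] in
theorem InD.s12 {D A B C : Finset V} {a b c : V} (h : InD D a A b B c C) : InD D b B a A c C :=
  ⟨h.b, h.a, h.c, h.B, h.A, h.C⟩

omit [DecidableEq V] in
theorem InD.s23 {D A B C : Finset V} {a b c : V} (h : InD D a A b B c C) : InD D a A c C b B :=
  ⟨h.a, h.c, h.b, h.A, h.C, h.B⟩

theorem main_ind (hG : G.Connected) (hr : 1 ≤ r) (hf : Free G (r + 1)) (n : ℕ) :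
    ∀ (D A B C : Finset V) (a b c la lb : V), Opt G r D → Tri G a A b B c C →
      InD D a A b B c C → la ∈ A → lb ∈ B → Conn G (D.erase la) → Conn G (D.erase lb) →
      B.card ≤ n → (3 ≤ C.card ∨ (2 ≤ C.card ∧ deg G D la = 1 ∧ deg G D lb = 1)) → False := by
  induction n with
  | zero =>
    intro D A B C a b c la lb _ _ _ _ hlb _ _ hn _
    have := card_pos.2 ⟨lb, hlb⟩
    omega
  | succ n ih =>
    intro D A B C a b c la lb hO h hi hla hlb ca cb hn hC
    have hD := hO.good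
    by_cases hU : ∃ qa qb, Unl G r D la lb qa qb
    · obtain ⟨qa, qb, hU⟩ := hU
      obtain ⟨h1, h2⟩ := hD.unl hG hf h hi hla hlb hU
      obtain ⟨m, hm, l, hl, hml, hcm⟩ := h.rc.pair (by omega)
      obtain ⟨_, _, g3, _, s1, s2, s3, s4⟩ := h2 m hm l hl hml hcm
      have := hO.phi _ s1 s2 s3
      omega
    have hab : Ap G la lb := (h.ab.1 la hla).1 lb hlb
    have hCne : C.Nonempty := card_pos.1 (by omega)
    have hblb : b ≠ lb := fun he => h.rb.1 (he ▸ hlb)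
    have m1 : la ∈ D.erase lb := mem_erase.2 ⟨hab.1, hi.A hla⟩
    have m3 : b ∈ D.erase lb := mem_erase.2 ⟨hblb, hi.b⟩
    obtain ⟨g6, q, hq, s1, k1, k2⟩ := hD.lnk hG hr (hi.A hla) (hi.B hlb) hab.1 ca cb hU
    have g5 := (hD.lnk hG hr (hi.B hlb) (hi.A hla) hab.1.symm cb ca
      fun ⟨_, _, h⟩ => hU ⟨_, _, h.symm⟩).1
    have hqa : q ∉ D.erase lb := fun hx => hq.2.1 (mem_of_mem_erase hx)
    obtain ⟨p0, p1⟩ := Phi_pendant hqa m1 hq.1 fun y hy hne => (hq.2.2 y (mem_of_mem_erase hy) hne).2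
    have p3 := hO.phi _ s1 k1.le k2
    obtain ⟨p5, p5'⟩ := Phi_erase (hi.B hlb) cb m1 m3 (h.ab.1 la hla).2.1
    have g1 := deg_mono (G := G) (erase_subset lb D) la
    obtain ⟨w, hw, hw'⟩ := (h.rb.2 lb hlb).last hblb.symm
    have hwD : w ∈ D := mem_of_or hi.b hi.B hw
    have m5 : w ∈ D.erase lb := mem_erase.2 ⟨hw'.ne, hwD⟩
    have p7 := p5' w m5 hw'.symm
    rw [g6] at p7 p5
    have g7 : deg G (D.erase lb) w ≤ 1 := by omega
    have hwb : w ≠ b := by
      rintro rfl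
      obtain ⟨y, z, hyz, hy, hz, hy', hz'⟩ := h.swap23.two_nbrs ⟨la, hla⟩ hCne
      have := two_le_deg (mem_erase.2 ⟨h.ab.symm.ne hlb hy', mem_of_or hi.a hi.A hy'⟩)
        (mem_erase.2 ⟨h.bc.ne hlb hz', mem_of_or hi.c hi.C hz'⟩) hyz hy hz
      omega
    have hwB : w ∈ B := hw.resolve_left hwb
    have g8 : deg G (insert q (D.erase lb)) w ≤ 1 := by
      rw [deg_insert hqa, if_neg (hq.2.2 w hwD (h.ab.ne hla (Or.inr hwB))).symm.2]; omega
    have g9 : deg G (insert q (D.erase lb)) q = 1 := by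
      rw [deg_insert hqa, if_neg (G.loopless.1 _), p0]
    have sub : ∀ {c : V} {C : Finset V}, c ∈ D → C ⊆ D → Sep G b B c C → ∀ y, (y = c ∨ y ∈ C) →
        y ∈ insert q (D.erase lb) := fun hc hC hs y hy =>
      mem_insert_of_mem (mem_erase.2 ⟨hs.ne hlb hy, mem_of_or hc hC hy⟩)
    have hT := h.add hi hla hq
    have e1 := hD.emin _ s1 k1.le
    refine ih (insert q (D.erase lb)) (insert q A) (B.erase lb) C a b c q w
      ⟨hD.of_le s1 k1.le k2, fun D' hD' hle hle' => ?_⟩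
      ⟨h.base, hT.ab.mono subset_rfl (erase_subset _ _),
        h.bc.mono (erase_subset _ _) subset_rfl, hT.ac, hT.ra, ⟨?_, ?_⟩, h.rc⟩
      ⟨sub hi.a hi.A h.ab.symm a (Or.inl rfl), mem_insert_of_mem m3, sub hi.c hi.C h.bc c (Or.inl rfl),
        ?_, ?_, fun y hy => sub hi.c hi.C h.bc y (Or.inr hy)⟩
      (mem_insert_self _ _) (mem_erase.2 ⟨hw'.ne, hwB⟩) ?_ ?_ ?_ ?_
    · have := hO.phi D' hD' (k1 ▸ hle) (by omega)
      omega
    · exact fun hx => h.rb.1 (mem_of_mem_erase hx)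
    · intro x hx
      exact (RIn.erase_leaf (w := w) hblb
        (fun y hy ha => eq_of_deg_le_one g6.le (mem_of_or hi.b hi.B hy) hwD ha hw'.symm)
        (h.rb.2 x (mem_of_mem_erase hx))).1 (mem_erase.1 hx).1
    · exact insert_subset (mem_insert_self _ _) fun x hx => sub hi.a hi.A h.ab.symm x (Or.inr hx)
    · exact fun x hx => mem_insert_of_mem (erase_subset_erase _ hi.B hx)
    · rw [erase_insert hqa]; exact cb
    · exact conn_erase_leaf s1.2.1 g8 (mem_insert_of_mem m3) (mem_insert_of_mem m5) hwb.symm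
    · have := card_erase_lt_of_mem hlb
      omega
    · rcases hC with hC | hC
      · exact Or.inl hC
      · have := s1.2.1.deg_pos (mem_insert_of_mem m1) (mem_insert_of_mem m3) (h.ab.1 la hla).2.1
          (mem_insert_of_mem m5)
        exact Or.inr ⟨hC.1, g9, by omega⟩

omit [DecidableRel G.Adj] in
theorem Tri.noncut {a b c : V} {A B C D : Finset V} (h : Tri G a A b B c C) (hD : Conn G D)
    (hi : InD D a A b B c C) (hC : C.Nonempty) :
    ∃ R l, C ⊆ R ∧ Tri G a A b B c R ∧ InD D a A b B c R ∧ l ∈ R ∧ Conn G (D.erase l) := by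
  obtain ⟨R, h1, h2, h3, h4⟩ := h.enlarge hD hi.a hi.b hi.c hi.A hi.B hi.C
  have c1 := card_sdiff_of_subset h2
  have c2 := card_le_card h2
  have c3 := card_pos.2 (hC.mono h1)
  obtain ⟨l, hl, hl', hc⟩ := exists_noncut hD (R.card - 1) (D \ R) sdiff_subset
    ⟨c, mem_sdiff.2 ⟨hi.c, h3.rc.1⟩⟩ h4 (by omega)
  refine ⟨R, l, h1, h3, ⟨hi.a, hi.b, hi.c, hi.A, hi.B, h2⟩, ?_, hc⟩
  by_contra hn
  exact hl' (mem_sdiff.2 ⟨hl, hn⟩)

omit [DecidableRel G.Adj] in
theorem Tri.noncut2 {a b c : V} {A B C D : Finset V} (h : Tri G a A b B c C) (hD : Conn G D)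
    (hi : InD D a A b B c C) (hA : A.Nonempty) (hB : B.Nonempty) :
    ∃ A' B' la lb, Tri G a A' b B' c C ∧ InD D a A' b B' c C ∧ la ∈ A' ∧ lb ∈ B' ∧
      Conn G (D.erase la) ∧ Conn G (D.erase lb) := by
  obtain ⟨B', lb, _, b2, b3, b4, b5⟩ := h.swap23.noncut hD hi.s23 hB
  obtain ⟨A', la, _, a2, a3, a4, a5⟩ := b2.swap12.swap23.noncut hD b3.s12.s23 hA
  exact ⟨A', B', la, lb, a2.swap23.swap12.swap23, a3.s23.s12.s23, a4, b4, a5, b5⟩

theorem Opt.card_le (hG : G.Connected) (hr : 1 ≤ r) (hf : Free G (r + 1)) {D A B C : Finset V}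
    {a b c : V} (hD : Opt G r D) (h : Tri G a A b B c C) (hi : InD D a A b B c C)
    (hA : A.Nonempty) (hB : B.Nonempty) : C.card ≤ 2 := by
  by_contra hC
  obtain ⟨A', B', la, lb, h1, h2, h3, h4, h5, h6⟩ := h.noncut2 hD.good.cd.2.1 hi hA hB
  exact main_ind hG hr hf _ D A' B' C a b c la lb hD h1 h2 h3 h4 h5 h6 le_rfl (Or.inl (by omega))

theorem Opt.leaves (hG : G.Connected) (hr : 1 ≤ r) (hf : Free G (r + 1)) {D A B C : Finset V}
    {a b c la lb : V} (hD : Opt G r D) (h : Tri G a A b B c C) (hi : InD D a A b B c C)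
    (hla : la ∈ A) (hlb : lb ∈ B) (ga : deg G D la = 1) (gb : deg G D lb = 1) : C.card ≤ 1 := by
  by_contra hC
  exact main_ind hG hr hf _ D A B C a b c la lb hD h hi hla hlb
    (conn_erase_leaf hD.good.cd.2.1 ga.le hi.a (hi.A hla) fun he => h.ra.1 (he ▸ hla))
    (conn_erase_leaf hD.good.cd.2.1 gb.le hi.b (hi.B hlb) fun he => h.rb.1 (he ▸ hlb))
    le_rfl (Or.inr ⟨by omega, ga, gb⟩)

/-- nothing else of `D` is attached to the branch -/
def Closed (G : SimpleGraph V) (D : Finset V) (c : V) (C : Finset V) : Prop :=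
  ∀ x ∈ C, ∀ y ∈ D, G.Adj x y → y = c ∨ y ∈ C

theorem closed_pair {D C : Finset V} {c m l : V} (hb : Br G c C) (hc : c ∈ D) (hC : C ⊆ D)
    (h2 : C.card ≤ 2) (hm : m ∈ C) (hl : l ∈ C) (hml : m ≠ l) (hcm : G.Adj c m)
    (g1 : deg G D l = 1) (g2 : deg G (D.erase l) m = 1) : Closed G D c C := by
  have hR : ({m, l} : Finset V) = C := eq_of_subset_of_card_le
    (insert_subset hm (singleton_subset_iff.2 hl)) (by rw [card_pair hml]; omega)
  have hcl : c ≠ l := fun he => hb.1 (he ▸ hl)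
  intro x hx y hy ha
  rw [← hR] at hx
  rcases mem_insert.1 hx with rfl | hx
  · by_cases hyl : y = l
    · exact Or.inr (hyl ▸ hl)
    · exact Or.inl (eq_of_deg_le_one g2.le (mem_erase.2 ⟨hyl, hy⟩) (mem_erase.2 ⟨hcl, hc⟩) ha hcm.symm)
  · rw [mem_singleton.1 hx] at ha
    obtain ⟨z, hz, hz'⟩ := (hb.2 l hl).last hcl.symm
    rw [eq_of_deg_le_one g1.le hy (mem_of_or hc hC hz) ha hz'.symm]
    exact hz

theorem Opt.third (hG : G.Connected) (hr : 1 ≤ r) (hf : Free G (r + 1)) {D A B C : Finset V}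
    {a b c la lb m l : V} (hD : Opt G r D) (h : Tri G a A b B c C) (hi : InD D a A b B c C)
    (hla : la ∈ A) (hlb : lb ∈ B) (ca : Conn G (D.erase la)) (cb : Conn G (D.erase lb))
    (hm : m ∈ C) (hl : l ∈ C) (hml : m ≠ l) (hcm : G.Adj c m) :
    deg G D l = 1 ∧ Closed G D c C ∧ deg G D c ≤ deg G D la + deg G D lb := by
  have c2 : 2 ≤ C.card := one_lt_card.2 ⟨m, hm, l, hl, hml⟩
  obtain ⟨qa, qb, hU⟩ := hD.good.unl_of hG hr (hi.A hla) (hi.B hlb) ((h.ab.1 la hla).1 lb hlb).1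
    ca cb fun hn => by
      have := hD.leaves hG hr hf h hi hla hlb hn.1 hn.2
      omega
  obtain ⟨h1, h2⟩ := hD.good.unl hG hf h hi hla hlb hU
  obtain ⟨g1, g2, _, _, s1, s2, s3, s4⟩ := h2 m hm l hl hml hcm
  have := hD.phi _ s1 s2 s3
  exact ⟨g1, closed_pair h.rc hi.c hi.C h1 hm hl hml hcm g1 g2, by omega⟩

omit [DecidableRel G.Adj] in
/-- one more vertex joins the third branch -/
theorem Tri.grow {A B C : Finset V} {a b c x y : V} (h : Tri G a A b B c C) (hx : x = c ∨ x ∈ C)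
    (hxy : G.Adj x y) (hy : y ≠ c) (h1 : Off G c a A y) (h2 : Off G c b B y) :
    Tri G a A b B c (insert y C) := by
  have hs : ∀ {a : V} {A : Finset V}, Sep G a A c C → Off G c a A y → Sep G a A c (insert y C) :=
    fun hs ho => ⟨fun z hz => ⟨fun w hw => by
        rcases mem_insert.1 hw with rfl | hw
        · exact (ho.1 z hz).symm
        · exact (hs.1 z hz).1 w hw, (hs.1 z hz).2⟩,
      fun w hw => by
        rcases mem_insert.1 hw with rfl | hw
        · exact ho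
        · exact hs.2 w hw⟩
  refine ⟨h.base, h.ab, hs h.bc h2, hs h.ac h1, h.ra, h.rb, fun hc => ?_, fun w hw => ?_⟩
  · rcases mem_insert.1 hc with hc | hc
    · exact hy hc.symm
    · exact h.rc.1 hc
  · rcases mem_insert.1 hw with rfl | hw'
    · refine RIn.tail ?_ hxy hw
      rcases hx with rfl | hx
      · exact RIn.refl _ _
      · exact (h.rc.2 x hx).mono (subset_insert _ _)
    · exact (h.rc.2 w hw').mono (subset_insert _ _)

omit [DecidableEq V] [DecidableRel G.Adj] in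
theorem triS {A B C : Finset V} {v : V} (ha : Br G v A) (hb : Br G v B) (hc : Br G v C)
    (h1 : ∀ x ∈ A, ∀ y ∈ B, Ap G x y) (h2 : ∀ x ∈ B, ∀ y ∈ C, Ap G x y)
    (h3 : ∀ x ∈ A, ∀ y ∈ C, Ap G x y) : Tri G v A v B v C := by
  have hs : ∀ {A B : Finset V}, Br G v A → Br G v B → (∀ x ∈ A, ∀ y ∈ B, Ap G x y) →
      Sep G v A v B := fun ha hb h =>
    ⟨fun x hx => ⟨h x hx, fun he => ha.1 (he ▸ hx), fun h' => absurd rfl h'⟩,
     fun y hy => ⟨fun x hx => (h x hx y hy).symm, fun he => hb.1 (he ▸ hy), fun h' => absurd rfl h'⟩⟩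
  exact ⟨Or.inl ⟨rfl, rfl⟩, hs ha hb h1, hs hb hc h2, hs ha hc h3, ha, hb, hc⟩

omit [DecidableRel G.Adj] in
theorem Br.cons {v b : V} {B : Finset V} (h : Br G b B) (ha : G.Adj v b) (hv : v ∉ B) :
    Br G v (insert b B) := by
  have h0 : RIn G (insert b B) v b := (RIn.refl _ _).tail ha (mem_insert_self _ _)
  refine ⟨fun hm => ?_, fun x hx => ?_⟩
  · rcases mem_insert.1 hm with hm | hm
    · exact ha.ne hm
    · exact hv hm
  · rcases mem_insert.1 hx with rfl | hx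
    · exact h0
    · exact h0.trans ((h.2 x hx).mono (subset_insert _ _))

omit [DecidableEq V] [DecidableRel G.Adj] in
theorem Br.single {v b : V} (ha : G.Adj v b) : Br G v {b} :=
  ⟨fun hm => ha.ne (mem_singleton.1 hm), fun x hx => by
    rw [mem_singleton.1 hx]; exact (RIn.refl _ _).tail ha (mem_singleton_self _)⟩

omit [DecidableEq V] [DecidableRel G.Adj] in
theorem Closed.ap {D C : Finset V} {c y : V} (h : Closed G D c C) (hy : y ∈ D) (hc : y ≠ c)
    (hC : y ∉ C) : ∀ x ∈ C, Ap G y x := fun x hx =>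
  ⟨fun he => hC (he ▸ hx), fun ha => (h x hx y hy ha.symm).elim hc hC⟩

omit [DecidableRel G.Adj] in
/-- on a triangle base: a vertex `y` next to `lb` and to `a` only gives a tripod centred at `a` -/
theorem Tri.recentre {D A B C : Finset V} {a b c lb y : V} (h : Tri G a A b B c C)
    (hac : G.Adj a c) (hcb : c ≠ b) (hA : Closed G D a A) (hC : Closed G D c C)
    (hlb : lb ∈ B) (hy : y ∈ D) (h1 : G.Adj lb y) (h2 : G.Adj y a) (h3 : ¬ G.Adj y c) :
    Tri G a A a (insert c C) a (insert y {lb}) := by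
  have oa := h.ab.2 lb hlb
  have oc := h.bc.1 lb hlb
  have yA : y ∉ A := fun hm => (oa.1 y hm).2 h1
  have yC : y ∉ C := fun hm => (oc.1 y hm).2 h1
  have yc : y ≠ c := fun he => oc.2.2 hcb (he ▸ h1)
  refine triS h.ra (h.rc.cons hac fun hm => (h.ac.2 a hm).2.1 rfl)
    ((Br.single h1.symm).cons h2.symm (by simpa using oa.2.1.symm)) ?_ ?_ ?_
  · intro x hx z hz
    rcases mem_insert.1 hz with rfl | hz
    · exact ⟨(h.ac.1 x hx).2.1, (h.ac.1 x hx).2.2 hac.ne.symm⟩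
    · exact (h.ac.1 x hx).1 z hz
  · simp only [mem_insert, mem_singleton]
    rintro x (rfl | hx) z (rfl | rfl)
    · exact ⟨yc.symm, fun h' => h3 h'.symm⟩
    · exact Ap.symm ⟨oc.2.1, oc.2.2 hcb⟩
    · exact (hC.ap hy yc yC x hx).symm
    · exact (oc.1 x hx).symm
  · simp only [mem_insert, mem_singleton]
    rintro x hx z (rfl | rfl)
    · exact (hA.ap hy h2.ne yA x hx).symm
    · exact (oa.1 x hx).symm

end Pool.Agent.P.MP_8b4774_co.Rep
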