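import Pool.Agent.P.MP_8b4774_co.RepE

set_option autoImplicit false

namespace Pool.Agent.P.MP_8b4774_co.Rep

open Finset

variable {V : Type} {G : SimpleGraph V} [DecidableEq V] [DecidableRel G.Adj] {r : ℕ}

theorem Opt.two_closed (hG : G.Connected) (hr : 1 ≤ r) (hf : Free G (r + 1)) {D A B C : Finset V}
    {a b c la lb m l : V} (hD : Opt G r D) (h : Tri G a A b B c C) (hi : InD D a A b B c C)
    (hA : Closed G D a A) (hC : Closed G D c C) (hla : la ∈ A) (hlb : lb ∈ B) (hm : m ∈ C)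
    (hl : l ∈ C) (hml : m ≠ l) (hcm : G.Adj c m) (ga : deg G D la = 1) (gl : deg G D l = 1)
    (cb : Conn G (D.erase lb)) : False := by
  have oa := h.ab.2 lb hlb
  have oc := h.bc.1 lb hlb
  have ca := conn_erase_leaf hD.good.cd.2.1 ga.le hi.a (hi.A hla) fun he => h.ra.1 (he ▸ hla)
  have g1 := (hD.third hG hr hf h hi hla hlb ca cb hm hl hml hcm).2.2
  have key : ∀ y ∈ D, G.Adj lb y → y ≠ b →
      (G.Adj a b ∧ G.Adj b c ∧ G.Adj a c) ∧ G.Adj y c := by
    intro y hy hly hyb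
    have off : ∀ {a : V} {A : Finset V}, Closed G D a A → Off G b a A lb →
        ¬ (a ≠ b ∧ G.Adj y a) → Off G b a A y := fun {a A} hA oa hn => by
      have ya : y ≠ a := by
        rintro rfl
        exact oa.2.2 hyb hly
      exact ⟨hA.ap hy ya fun hm => (oa.1 y hm).2 hly, ya, fun h1 h2 => hn ⟨h1, h2⟩⟩
    have h1 : (a ≠ b ∧ G.Adj y a) ∨ (c ≠ b ∧ G.Adj y c) := by
      by_contra hn
      have := hD.leaves hG hr hf (h.swap23.grow (Or.inr hlb) hly hyb
        (off hA oa fun h' => hn (Or.inl h')) (off hC oc fun h' => hn (Or.inr h')))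
        ⟨hi.a, hi.c, hi.b, hi.A, hi.C, insert_subset hy hi.B⟩ hla hl ga gl
      have h2 : 1 < (insert y B).card :=
        one_lt_card.2 ⟨y, mem_insert_self _ _, lb, mem_insert_of_mem hlb, hly.ne.symm⟩
      omega
    have hb : G.Adj a b ∧ G.Adj b c ∧ G.Adj a c := by
      rcases h.base with hb | hb
      · rcases h1 with h1 | h1
        · exact absurd hb.1 h1.1
        · exact absurd hb.2.symm h1.1
      · exact hb
    refine ⟨hb, ?_⟩
    by_contra hyc
    have hya : G.Adj y a := by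
      rcases h1 with h1 | h1
      · exact h1.2
      · exact absurd h1.2 hyc
    have := hD.leaves hG hr hf (h.recentre hb.2.2 hb.2.1.ne.symm hA hC hlb hy hly hya hyc)
      ⟨hi.a, hi.a, hi.a, hi.A, insert_subset hi.c hi.C,
        insert_subset hy (singleton_subset_iff.2 (hi.B hlb))⟩ hla (mem_insert_of_mem hl) ga gl
    rw [card_pair hly.ne.symm] at this
    omega
  have g2 : deg G D lb ≠ 1 := fun g2 => by
    have := hD.leaves hG hr hf h hi hla hlb ga g2
    have : 1 < C.card := one_lt_card.2 ⟨m, hm, l, hl, hml⟩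
    omega
  have g3 := hD.good.cd.2.1.deg_pos (hi.C hm) (hi.C hl) hml (hi.B hlb)
  obtain ⟨y, hy, hyb⟩ := exists_mem_ne (s := D.filter (G.Adj lb))
    (by show 1 < deg G D lb; omega) b
  have hb := (key y (mem_filter.1 hy).1 (mem_filter.1 hy).2 hyb).1
  have hsub : insert a (insert m (D.filter (G.Adj lb))) ⊆ D.filter (G.Adj c) := by
    intro z hz
    rcases mem_insert.1 hz with rfl | hz
    · exact mem_filter.2 ⟨hi.a, hb.2.2.symm⟩
    rcases mem_insert.1 hz with rfl | hz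
    · exact mem_filter.2 ⟨hi.C hm, hcm⟩
    obtain ⟨z1, z2⟩ := mem_filter.1 hz
    by_cases hzb : z = b
    · rw [hzb]; exact mem_filter.2 ⟨hi.b, hb.2.1.symm⟩
    · exact mem_filter.2 ⟨z1, (key z z1 z2 hzb).2.symm⟩
  have c1 := card_le_card hsub
  rw [card_insert_of_notMem, card_insert_of_notMem] at c1
  · unfold deg at g1 ga
    omega
  · exact fun hx => (oc.1 m hm).2 (mem_filter.1 hx).2
  · intro hx
    rcases mem_insert.1 hx with hx | hx
    · exact (h.ac.2 m hm).2.1 hx.symm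
    · exact oa.2.2 hb.1.ne (mem_filter.1 hx).2

theorem Opt.end_noncut (hG : G.Connected) (hr : 1 ≤ r) (hf : Free G (r + 1)) {D A B C : Finset V}
    {a b c m l : V} (hD : Opt G r D) (h : Tri G a A b B c C) (hi : InD D a A b B c C)
    (hA : A.Nonempty) (hB : B.Nonempty) (hm : m ∈ C) (hl : l ∈ C) (hml : m ≠ l)
    (hcm : G.Adj c m) : Conn G (D.erase l) := by
  obtain ⟨R, h1, h2, h3, h4⟩ := h.enlarge hD.good.cd.2.1 hi.a hi.b hi.c hi.A hi.B hi.C
  have c1 := hD.card_le hG hr hf h3 ⟨hi.a, hi.b, hi.c, hi.A, hi.B, h2⟩ hA hB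
  have hR : ({m, l} : Finset V) = R := eq_of_subset_of_card_le
    (insert_subset (h1 hm) (singleton_subset_iff.2 (h1 hl))) (by rw [card_pair hml]; omega)
  have hE : (D.erase l).erase m = D \ R := by
    ext x; rw [← hR]; simp only [mem_erase, mem_sdiff, mem_insert, mem_singleton]; tauto
  have := h4.insert (mem_sdiff.2 ⟨hi.c, h3.rc.1⟩) hcm
  rwa [← hE, insert_erase (mem_erase.2 ⟨hml, hi.C hm⟩)] at this

theorem Opt.no122 (hG : G.Connected) (hr : 1 ≤ r) (hf : Free G (r + 1)) {D A B C : Finset V}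
    {a b c : V} (hD : Opt G r D) (h : Tri G a A b B c C) (hi : InD D a A b B c C)
    (hA : A.Nonempty) (hB : 2 ≤ B.card) (hC : 2 ≤ C.card) : False := by
  obtain ⟨mb, b1, lb, b2, b3, b4⟩ := h.rb.pair hB
  obtain ⟨mc, c1, lc, c2, c3, c4⟩ := h.rc.pair hC
  obtain ⟨R, la, _, T, I, a1, na⟩ := h.swap12.swap23.noncut hD.good.cd.2.1 hi.s12.s23 hA
  have nb := hD.end_noncut hG hr hf T.swap12.swap23 I.s12.s23 ⟨_, c1⟩ ⟨_, a1⟩ b1 b2 b3 b4
  have nc := hD.end_noncut hG hr hf T.swap23 I.s23 ⟨_, b1⟩ ⟨_, a1⟩ c1 c2 c3 c4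
  obtain ⟨g1, g2, _⟩ := hD.third hG hr hf T.swap23 I.s23 b2 a1 nb na c1 c2 c3 c4
  obtain ⟨g3, g4, _⟩ := hD.third hG hr hf T.swap12.swap23 I.s12.s23 c2 a1 nc na b1 b2 b3 b4
  exact hD.two_closed hG hr hf T.swap23 I.s23 g4 g2 b2 a1 c1 c2 c3 c4 g3 g1 na

/-- a good set with two pendant vertices at vertices that lie on cycles -/
structure Star (G : SimpleGraph V) [DecidableRel G.Adj] (r : ℕ) (K : Finset V) (la lb qa qb : V) :
    Prop where
  good : Good G r (insert qa (insert qb K))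
  conn : Conn G K
  ma : la ∈ K
  mb : lb ∈ K
  ca : Conn G (K.erase la)
  cb : Conn G (K.erase lb)
  ga : 2 ≤ deg G K la
  gb : 2 ≤ deg G K lb
  pa : Pend G K la qa
  pb : Pend G K lb qb
  ap : Ap G la lb
  aq : Ap G qa qb

theorem Star.symm {K : Finset V} {la lb qa qb : V} (h : Star G r K la lb qa qb) :
    Star G r K lb la qb qa :=
  ⟨insert_comm qa qb K ▸ h.good, h.conn, h.mb, h.ma, h.cb, h.ca, h.gb, h.ga, h.pb, h.pa,
    h.ap.symm, h.aq.symm⟩

theorem Star.pa' {K : Finset V} {la lb qa qb : V} (h : Star G r K la lb qa qb) :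
    Pend G (insert qb K) la qa := by
  refine ⟨h.pa.1, fun hx => ?_, fun y hy hne => ?_⟩
  · rcases mem_insert.1 hx with hx | hx
    · exact h.aq.1 hx
    · exact h.pa.2.1 hx
  · rcases mem_insert.1 hy with rfl | hy
    · exact h.aq
    · exact h.pa.2.2 y hy hne

theorem Star.nbr {K : Finset V} {la lb qa qb : V} (h : Star G r K la lb qa qb) {z : V}
    (hz : z ∈ insert qa (insert qb K)) (ha : G.Adj z qa) : z = la := by
  by_contra hne
  rcases mem_insert.1 hz with hz | hz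
  · exact ha.ne hz
  · exact (h.pa'.2.2 z hz hne).2 ha.symm

theorem Good.nb (hG : G.Connected) (hf : Free G (r + 1)) {D A B C : Finset V}
    {a b c x e lb qb q q' : V} (hD : Good G r D) (h : Tri G a A c C b B) (hi : InD D a A c C b B)
    (hx : x ∈ A) (he : e ∈ C) (hU : Unl G r D x e q q') (h1 : lb ∈ B) (h2 : qb ∈ B)
    (h3 : lb ≠ qb) (h4 : ¬ G.Adj b qb) (h5 : 2 ≤ deg G (D.erase qb) lb) : False := by
  obtain ⟨c1, c2⟩ := hD.unl hG hf h hi hx he hU
  obtain ⟨m, hm, ha⟩ := (h.rc.2 lb h1).first (fun he => h.rc.1 (he ▸ h1))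
  have hmq : m ≠ qb := fun he => h4 (he ▸ ha)
  have hR : ({lb, qb} : Finset V) = B := eq_of_subset_of_card_le
    (insert_subset h1 (singleton_subset_iff.2 h2)) (by rw [card_pair h3]; omega)
  have hml : m = lb := by
    rw [← hR] at hm
    simpa [hmq] using hm
  have := (c2 m hm qb h2 hmq ha).2.1
  rw [hml] at this
  omega

theorem Star.no_tri (hG : G.Connected) (hr : 1 ≤ r) (hf : Free G (r + 1)) {K A B C : Finset V}
    {a b c la lb qa qb : V} (S : Star G r K la lb qa qb) (h : Tri G a A b B c C)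
    (hi : InD K a A b B c C) (hla : la ∈ A) (hlb : lb ∈ B) (hC : C.Nonempty) : False := by
  have s1 : K ⊆ insert qb K := subset_insert _ _
  have s2 : insert qb K ⊆ insert qa (insert qb K) := subset_insert _ _
  have T1 := (h.swap12.add hi.s12 hlb S.pb).swap12
  have I1 : InD (insert qb K) a A b (insert qb B) c C :=
    ⟨s1 hi.a, s1 hi.b, s1 hi.c, hi.A.trans s1, insert_subset_insert _ hi.B, hi.C.trans s1⟩
  have T2 := T1.add I1 hla S.pa'
  have I2 : InD (insert qa (insert qb K)) a (insert qa A) b (insert qb B) c C :=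
    ⟨s2 I1.a, s2 I1.b, s2 I1.c, insert_subset_insert _ I1.A, I1.B.trans s2, I1.C.trans s2⟩
  obtain ⟨R, e, _, T3, I3, he, ce⟩ := T2.noncut S.good.cd.2.1 I2 hC
  have n1 : lb ≠ qb := S.pb.1.ne
  have n2 : ¬ G.Adj b qb := (S.pb.2.2 b hi.b fun he => h.rb.1 (he ▸ hlb)).symm.2
  have dg : ∀ D : Finset V, K ⊆ D → 2 ≤ deg G (D.erase qb) lb := fun D hD =>
    S.gb.trans (deg_mono (fun y hy => mem_erase.2 ⟨fun he : y = qb => S.pb.2.1 (he ▸ hy), hD hy⟩) lb)
  by_cases hU : ∃ q q', Unl G r (insert qa (insert qb K)) qa e q q'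
  · obtain ⟨q, q', hU⟩ := hU
    exact S.good.nb hG hf T3.swap23 I3.s23 (mem_insert_self _ _) he hU (mem_insert_of_mem hlb)
      (mem_insert_self _ _) n1 n2 (dg _ (s1.trans s2))
  have hE : (insert qa (insert qb K)).erase qa = insert qb K := erase_insert S.pa'.2.1
  have eq : e ≠ qa := T3.ac.ne (mem_insert_self _ _) (Or.inr he)
  have c1 : Conn G (insert qb K) := S.conn.insert S.mb S.pb.1
  obtain ⟨_, q, hq, k1, k2, k3⟩ := S.good.lnk hG hr (I3.C he) (mem_insert_self _ _) eq ce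
    (hE.symm ▸ c1) fun ⟨_, _, h⟩ => hU ⟨_, _, h.symm⟩
  have hD' := S.good.of_le k1 k2.le k3
  rw [hE] at hD'
  have hR : R ⊆ insert qb K := fun y hy =>
    (mem_insert.1 (I3.C hy)).resolve_left (T3.ac.ne (mem_insert_self _ _) (Or.inr hy))
  have T4 : Tri G a A b (insert qb B) c R :=
    ⟨h.base, T1.ab, T3.bc, T3.ac.mono (subset_insert _ _) subset_rfl, h.ra, T3.rb, T3.rc⟩
  have T5 := T4.swap23.swap12.add
    (D := insert qa (insert qb K)) ⟨I3.c, I3.a, I3.b, I3.C, I1.A.trans s2, I3.B⟩ he hq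
  have s3 : insert qb K ⊆ insert q (insert qb K) := subset_insert _ _
  have hqn : q ∉ insert qb K := fun hx => hq.2.1 (s2 hx)
  have I5 : InD (insert q (insert qb K)) c (insert q R) a A b (insert qb B) :=
    ⟨s3 I1.c, s3 I1.a, s3 I1.b, insert_subset_insert _ hR, I1.A.trans s3, I1.B.trans s3⟩
  have nq : q ≠ la := fun he => hqn (he ▸ s1 S.ma)
  have c2 : Conn G ((insert q (insert qb K)).erase la) := by
    have n3 : qb ≠ la := fun he => S.pb.2.1 (he ▸ S.ma)
    rw [erase_insert_of_ne nq, erase_insert_of_ne n3]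
    refine (S.ca.insert (mem_erase.2 ⟨S.ap.1.symm, S.mb⟩) S.pb.1).insert (l := e) ?_ hq.1
    rw [← erase_insert_of_ne n3]
    exact mem_erase.2 ⟨T4.ac.ne hla (Or.inr he), hR he⟩
  obtain ⟨q1, q2, hU'⟩ := hD'.unl_of hG hr (mem_insert_self _ _) (s3 (s1 S.ma)) nq
    (by rw [erase_insert hqn]; exact c1) c2 fun hn => by
      have := S.ga.trans (deg_mono (s1.trans s3) la)
      omega
  exact hD'.nb hG hf T5 I5 (mem_insert_self _ _) hla hU' (mem_insert_of_mem hlb)
    (mem_insert_self _ _) n1 n2 (dg _ (s1.trans s3))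

theorem Star.leaf {K : Finset V} {la lb qa qb x : V} (hK : ∀ f ∈ K, 2 ≤ deg G K f)
    (_ : Star G r K la lb qa qb) (hx : x ∈ insert qa (insert qb K))
    (h : deg G (insert qa (insert qb K)) x = 1) : x = qa ∨ x = qb := by
  by_contra hn
  push Not at hn
  have hxK : x ∈ K := (mem_insert.1 ((mem_insert.1 hx).resolve_left hn.1)).resolve_left hn.2
  have := (hK x hxK).trans (deg_mono ((subset_insert qb K).trans (subset_insert qa _)) x)
  omega

theorem Star.half (hG : G.Connected) (hr : 1 ≤ r) (hf : Free G (r + 1)) {K A B C : Finset V}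
    {a b c e la lb qa qb : V} (hK : ∀ f ∈ K, 2 ≤ deg G K f) (S : Star G r K la lb qa qb)
    (h : Tri G a A b B c C) (hi : InD (insert qa (insert qb K)) a A b B c C) (h1 : qa ∈ A)
    (h2 : qb ∈ B) (h3 : lb ∈ B) (he : e ∈ C) (ce : Conn G ((insert qa (insert qb K)).erase e)) :
    False := by
  have n1 := h.ac.ne h1 (Or.inr he)
  obtain ⟨q, q', hU⟩ := S.good.unl_of hG hr (hi.A h1) (hi.C he) n1.symm
    (by rw [erase_insert S.pa'.2.1]; exact S.conn.insert S.mb S.pb.1) ce fun hn =>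
      (S.leaf hK (hi.C he) hn.2).elim n1 (h.bc.ne h2 (Or.inr he))
  refine S.good.nb hG hf h.swap23 hi.s23 h1 he hU h3 h2 S.pb.1.ne (fun ha => ?_)
    (S.gb.trans (deg_mono (fun y hy => mem_erase.2 ⟨fun he : y = qb => S.pb.2.1 (he ▸ hy),
      mem_insert_of_mem (mem_insert_of_mem hy)⟩) lb))
  have := S.symm.nbr (insert_comm qa qb K ▸ hi.b) ha
  exact h.rb.1 (this ▸ h3)

theorem Star.both (hG : G.Connected) (hr : 1 ≤ r) (hf : Free G (r + 1)) {K A B C : Finset V}
    {a b c la lb qa qb : V} (hK : ∀ f ∈ K, 2 ≤ deg G K f) (S : Star G r K la lb qa qb)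
    (h : Tri G a A b B c C) (hi : InD (insert qa (insert qb K)) a A b B c C) (h1 : qa ∈ A)
    (h2 : qb ∈ B) (hC : C.Nonempty) : False := by
  obtain ⟨R, e, _, T, I, he, ce⟩ := h.noncut S.good.cd.2.1 hi hC
  obtain ⟨y, hy, hy'⟩ := (h.ra.2 qa h1).last (fun he => h.ra.1 (he ▸ h1))
  obtain ⟨z, hz, hz'⟩ := (h.rb.2 qb h2).last (fun he => h.rb.1 (he ▸ h2))
  have e1 := S.nbr (mem_of_or hi.a hi.A hy) hy'
  have e2 := S.symm.nbr (insert_comm qa qb K ▸ mem_of_or hi.b hi.B hz) hz'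
  subst e1 e2
  rcases hz with hz | hz
  · rcases hy with hy | hy
    · subst hy hz
      rcases h.base with hb | hb
      · exact S.ap.1 hb.1
      · exact S.ap.2 hb.1
    · exact S.symm.half hG hr hf hK T.swap12 (insert_comm qa qb K ▸ I.s12) h2 h1 hy he
        (insert_comm qa qb K ▸ ce)
  · exact S.half hG hr hf hK T I h1 h2 hz he ce

/-- the third branch of every tripod has only one vertex -/
def Slim (G : SimpleGraph V) (D : Finset V) : Prop :=
  ∀ (A B C : Finset V) (a b c : V), Tri G a A b B c C → InD D a A b B c C → A.Nonempty →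
    B.Nonempty → C.card ≤ 1

theorem Star.slim (hG : G.Connected) (hr : 1 ≤ r) (hf : Free G (r + 1)) {K : Finset V}
    {la lb qa qb : V} (hK : ∀ f ∈ K, 2 ≤ deg G K f) (S : Star G r K la lb qa qb) :
    Slim G (insert qa (insert qb K)) := by
  intro A B C a b c h hi hA hB
  by_contra hC
  obtain ⟨A', B', x, y, T, I, hx, hy, cx, cy⟩ := h.noncut2 S.good.cd.2.1 hi hA hB
  have hxy : x ≠ y := ((T.ab.1 x hx).1 y hy).1
  have hne : C.Nonempty := card_pos.1 (by omega)
  by_cases hn : deg G (insert qa (insert qb K)) x = 1 ∧ deg G (insert qa (insert qb K)) y = 1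
  · rcases S.leaf hK (I.A hx) hn.1 with rfl | rfl <;> rcases S.leaf hK (I.B hy) hn.2 with rfl | rfl
    · exact hxy rfl
    · exact S.both hG hr hf hK T I hx hy hne
    · exact S.both hG hr hf hK T.swap12 I.s12 hy hx hne
    · exact hxy rfl
  obtain ⟨q, q', hU⟩ := S.good.unl_of hG hr (I.A hx) (I.B hy) hxy cx cy hn
  obtain ⟨c1, c2⟩ := S.good.unl hG hf T I hx hy hU
  obtain ⟨m, hm, l, hl, hml, hcm⟩ := h.rc.pair (by omega)
  obtain ⟨g1, g2, g3, _⟩ := c2 m hm l hl hml hcm
  have hlq := S.leaf hK (hi.C hl) g1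
  have hlK : l ∉ K := by
    rcases hlq with rfl | rfl
    · exact S.pa.2.1
    · exact S.pb.2.1
  have hmK : m ∉ K := fun hmK => by
    have := (hK m hmK).trans (deg_mono (D := (insert qa (insert qb K)).erase l) (fun y hy =>
      mem_erase.2 ⟨fun he => hlK (he ▸ hy), mem_insert_of_mem (mem_insert_of_mem hy)⟩) m)
    omega
  have hmq : m = qa ∨ m = qb := by
    have := hi.C hm
    simpa [hmK] using this
  have hR : ({m, l} : Finset V) = C := eq_of_subset_of_card_le
    (insert_subset hm (singleton_subset_iff.2 hl)) (by rw [card_pair hml]; omega)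
  obtain ⟨z, hz, hz'⟩ := (h.rc.2 l hl).last (fun he => h.rc.1 (he ▸ hl))
  have hap : Ap G m l := by
    rcases hmq with rfl | rfl <;> rcases hlq with rfl | rfl
    · exact absurd rfl hml
    · exact S.aq
    · exact S.aq.symm
    · exact absurd rfl hml
  have hzc : z = c := by
    refine hz.resolve_right fun hz => ?_
    rw [← hR] at hz
    rcases mem_insert.1 hz with rfl | hz
    · exact hap.2 hz'
    · exact hz'.ne (mem_singleton.1 hz)
  rw [hzc] at hz'
  have hc' : c ∈ insert qb (insert qa K) := insert_comm qa qb K ▸ hi.c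
  rcases hmq with rfl | rfl <;> rcases hlq with rfl | rfl
  · exact hml rfl
  · exact S.ap.1 ((S.nbr hi.c hcm).symm.trans (S.symm.nbr hc' hz'))
  · exact S.ap.1 ((S.nbr hi.c hz').symm.trans (S.symm.nbr hc' hcm))
  · exact hml rfl

end Pool.Agent.P.MP_8b4774_co.Rep
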