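import Pool.Agent.P.MP_8b4774_co.RepF

set_option autoImplicit false

namespace Pool.Agent.P.MP_8b4774_co.Rep

open Finset

variable {V : Type} {G : SimpleGraph V} [DecidableEq V] [DecidableRel G.Adj] {r : ℕ}

/-- the one configuration that survives in an optimal set -/
structure Cfg (G : SimpleGraph V) [DecidableRel G.Adj] (r : ℕ) (D K C : Finset V)
    (a b c la lb qa qb : V) : Prop where
  opt : Opt G r D
  tri : Tri G a {la} b {lb} c C
  ind : InD D a {la} b {lb} c C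
  two : 2 ≤ C.card
  cl : Closed G D c C
  sub : K ⊆ D
  ma : a ∈ K
  mb : b ∈ K
  out : ∀ y ∈ K, y ∉ C
  aa : G.Adj a la
  bb : G.Adj b lb
  star : Star G r K la lb qa qb

theorem Cfg.symm {D K C : Finset V} {a b c la lb qa qb : V} (h : Cfg G r D K C a b c la lb qa qb) :
    Cfg G r D K C b a c lb la qb qa :=
  ⟨h.opt, h.tri.swap12, h.ind.s12, h.two, h.cl, h.sub, h.mb, h.ma, h.out, h.bb, h.aa, h.star.symm⟩

theorem Cfg.c0 (hG : G.Connected) (hr : 1 ≤ r) (hf : Free G (r + 1)) {D K C : Finset V}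
    {a b c la lb qa qb v x : V} (h : Cfg G r D K C a b c la lb qa qb) (hv : v ∈ K) (hx : x ∈ K)
    (h1 : G.Adj v la) (h2 : G.Adj v lb) (h3 : G.Adj v x) (h4 : Ap G x la) (h5 : Ap G x lb) :
    False :=
  h.star.no_tri hG hr hf (triS (Br.single h1) (Br.single h2) (Br.single h3)
      (by simpa using h.star.ap) (by simpa using h5.symm) (by simpa using h4.symm))
    ⟨hv, hv, hv, by simpa using h.star.ma, by simpa using h.star.mb, by simpa using hx⟩
    (by simp) (by simp) (by simp)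

theorem Cfg.c1 (hG : G.Connected) (hr : 1 ≤ r) (hf : Free G (r + 1)) {D K C : Finset V}
    {a b c la lb qa qb v x : V} (h : Cfg G r D K C a b c la lb qa qb) (hab : b ≠ a) (hv : v ∈ K)
    (hx : x ∈ K) (h1 : G.Adj v la) (h2 : G.Adj v b) (h2' : v ≠ lb) (h3 : G.Adj v x)
    (h4 : Ap G x la) (h5 : Ap G x lb) (h6 : Ap G x b) : False := by
  have o := h.tri.ab.1 la (by simp)
  refine h.star.no_tri hG hr hf (triS (Br.single h1) ((Br.single h.bb).cons h2 (by simpa using h2'))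
      (Br.single h3) ?_ ?_ (by simpa using h4.symm))
    ⟨hv, hv, hv, by simpa using h.star.ma,
      insert_subset h.mb (by simpa using h.star.mb), by simpa using hx⟩
    (by simp) (by simp) (by simp)
  · simp only [mem_insert, mem_singleton, forall_eq, forall_eq_or_imp]
    exact ⟨⟨o.2.1, o.2.2 hab⟩, h.star.ap⟩
  · simp only [mem_insert, mem_singleton, forall_eq, forall_eq_or_imp]
    exact ⟨h6.symm, h5.symm⟩

/-- no vertex hangs at `a` only -/
theorem Cfg.c2 (hG : G.Connected) (hr : 1 ≤ r) (hf : Free G (r + 1)) {D K C : Finset V}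
    {a b c la lb qa qb x : V} (h : Cfg G r D K C a b c la lb qa qb) (hx : x ∈ K)
    (h3 : G.Adj a x) (h4 : Ap G x la) (h5 : Ap G x lb) (h6 : b ≠ a → Ap G x b) : False := by
  by_cases hab : b = a
  · exact h.c0 hG hr hf h.ma hx h.aa (hab ▸ h.bb) h3 h4 h5
  · refine h.c1 hG hr hf hab h.ma hx h.aa ?_ (h.tri.ab.2 lb (by simp)).2.1.symm h3 h4 h5 (h6 hab)
    rcases h.tri.base with hb | hb
    · exact absurd hb.1.symm hab
    · exact hb.1

theorem Cfg.c3 (hG : G.Connected) (hr : 1 ≤ r) (hf : Free G (r + 1)) {D K C : Finset V}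
    {a b c la lb qa qb v x : V} (h : Cfg G r D K C a b c la lb qa qb) (hv : v ∈ K) (hx : x ∈ K)
    (h1 : G.Adj v la) (h2 : Ap G v lb) (h2' : v ≠ a) (h3 : G.Adj v x)
    (h4 : Ap G x la) (h5 : Ap G x lb) (h6 : Ap G x b) : False := by
  have ob := h.tri.ab.1 la (by simp)
  have oc := h.tri.ac.1 la (by simp)
  have vb : v ≠ b := by
    rintro rfl
    exact ob.2.2 h2' h1.symm
  have vc : v ≠ c := by
    rintro rfl
    exact oc.2.2 h2' h1.symm
  have vC := h.cl.ap (h.sub hv) vc (h.out v hv)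
  by_cases k1 : b ≠ a ∧ G.Adj v b
  · exact h.c1 hG hr hf k1.1 hv hx h1 k1.2 h2.1 h3 h4 h5 h6
  by_cases k2 : c ≠ a ∧ G.Adj v c
  · have hb : G.Adj a b ∧ G.Adj b c ∧ G.Adj a c :=
      h.tri.base.resolve_left fun hb => k2.1 (hb.1.trans hb.2).symm
    have o := h.tri.bc.1 lb (by simp)
    refine h.opt.no122 hG hr hf (triS (Br.single k2.2.symm)
        ((Br.single h.bb).cons hb.2.1.symm (by simpa using o.2.1.symm)) h.tri.rc ?_ ?_
        (by simpa using vC))
      ⟨h.ind.c, h.ind.c, h.ind.c, by simpa using h.sub hv, insert_subset h.ind.b h.ind.B, h.ind.C⟩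
      (by simp) (by rw [card_pair h.bb.ne]) h.two
    · simp only [mem_insert, mem_singleton, forall_eq, forall_eq_or_imp]
      exact ⟨⟨vb, fun h' => k1 ⟨hb.1.ne.symm, h'⟩⟩, h2⟩
    · simp only [mem_insert, mem_singleton, forall_eq, forall_eq_or_imp]
      exact ⟨fun y hy => Ap.symm ⟨(h.tri.bc.2 y hy).2.1, (h.tri.bc.2 y hy).2.2 hb.2.1.ne⟩, o.1⟩
  exact h.opt.no122 hG hr hf
    (h.tri.swap12.swap23.grow (x := la) (Or.inr (by simp)) h1.symm h2'
      ⟨by simpa using h2, vb, fun h' h'' => k1 ⟨h', h''⟩⟩ ⟨vC, vc, fun h' h'' => k2 ⟨h', h''⟩⟩)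
    ⟨h.ind.b, h.ind.c, h.ind.a, h.ind.B, h.ind.C, insert_subset (h.sub hv) h.ind.A⟩
    (by simp) h.two (by rw [card_pair h1.ne])

theorem Cfg.no_leaf (hG : G.Connected) (hr : 1 ≤ r) (hf : Free G (r + 1)) {D K C : Finset V}
    {a b c la lb qa qb : V} (h : Cfg G r D K C a b c la lb qa qb) : ∀ f ∈ K, 2 ≤ deg G K f := by
  intro f hfK
  by_contra hdeg
  have S := h.star
  have dga : ∀ {a b la lb qa qb : V}, Cfg G r D K C a b c la lb qa qb → 2 ≤ deg G K a := by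
    intro a b la lb qa qb h
    rcases h.tri.base with hb | hb
    · exact two_le_deg h.star.ma h.star.mb h.star.ap.1 h.aa (hb.1 ▸ h.bb)
    · exact two_le_deg h.star.ma h.mb (h.tri.ab.1 la (by simp)).2.1 h.aa hb.1
  have fl : ∀ {a b la lb qa qb : V}, Cfg G r D K C a b c la lb qa qb → Ap G f la ∧ f ≠ a := by
    intro a b la lb qa qb h
    have n1 : f ≠ la := fun he => hdeg (he ▸ h.star.ga)
    refine ⟨⟨n1, fun ha => ?_⟩, fun he => hdeg (he ▸ dga h)⟩
    have := h.star.ca.deg_pos (mem_erase.2 ⟨h.aa.ne, h.ma⟩)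
      (mem_erase.2 ⟨h.star.ap.1.symm, h.star.mb⟩) (h.tri.ab.2 lb (by simp)).2.1.symm
      (mem_erase.2 ⟨n1, hfK⟩)
    have h2 := deg_insert (G := G) (notMem_erase la K) f
    rw [insert_erase h.star.ma, if_pos ha] at h2
    omega
  obtain ⟨f1, f2⟩ := fl h
  obtain ⟨f3, f4⟩ := fl h.symm
  have f5 : ¬ G.Adj a f := fun ha => h.c2 hG hr hf hfK ha f1 f3 fun hab =>
    ⟨f4, fun hb => hdeg (two_le_deg h.mb h.ma hab hb ha.symm)⟩
  have f6 : ¬ G.Adj b f := fun hb => h.symm.c2 hG hr hf hfK hb f3 f1 fun _ =>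
    ⟨f2, fun ha => f5 ha.symm⟩
  have key : ∀ y, RIn G K f y → Ap G y la ∧ Ap G y lb ∧ Ap G y a ∧ Ap G y b := by
    intro y hy
    induction hy with
    | refl => exact ⟨f1, f3, ⟨f2, fun h' => f5 h'.symm⟩, ⟨f4, fun h' => f6 h'.symm⟩⟩
    | @tail x v h1 h2 ih =>
      obtain ⟨x1, x2, x3, x4⟩ := ih
      have hx : x ∈ K := mem_of_or hfK subset_rfl (RIn.mem h1)
      have ne : ∀ {z : V}, Ap G x z → v ≠ z := fun hz he => hz.2 (he ▸ h2.1)
      have v1 : ¬ G.Adj v la := fun h' => by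
        by_cases h'' : G.Adj v lb
        · exact h.c0 hG hr hf h2.2 hx h' h'' h2.1.symm x1 x2
        · exact h.c3 hG hr hf h2.2 hx h' ⟨ne x2, h''⟩ (ne x3) h2.1.symm x1 x2 x4
      have v2 : ¬ G.Adj v lb := fun h' =>
        h.symm.c3 hG hr hf h2.2 hx h' ⟨ne x1, v1⟩ (ne x4) h2.1.symm x2 x1 x3
      have v3 : ¬ G.Adj v a := fun h' => by
        refine h.c2 hG hr hf h2.2 h'.symm ⟨ne x1, v1⟩ ⟨ne x2, v2⟩ fun hab => ⟨ne x4, fun h'' => ?_⟩
        have hb : G.Adj a b := (h.tri.base.resolve_left fun hb => hab hb.1.symm).1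
        refine S.no_tri hG hr hf (A := {la}) (B := {lb}) (C := {x})
          ⟨Or.inr ⟨hb, h''.symm, h'.symm⟩, h.tri.ab, ?_, ?_, h.tri.ra, h.tri.rb, Br.single h2.1.symm⟩
          ⟨h.ma, h.mb, h2.2, by simpa using S.ma, by simpa using S.mb, by simpa using hx⟩
          (by simp) (by simp) (by simp)
        · simp only [Sep, Off, mem_singleton, forall_eq]
          exact ⟨⟨x2.symm, (ne x2).symm, fun _ h3 => v2 h3.symm⟩, x2, x4.1, fun _ => x4.2⟩
        · simp only [Sep, Off, mem_singleton, forall_eq]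
          exact ⟨⟨x1.symm, (ne x1).symm, fun _ h3 => v1 h3.symm⟩, x1, x3.1, fun _ => x3.2⟩
      have v4 : ¬ G.Adj v b := fun h' =>
        h.symm.c2 hG hr hf h2.2 h'.symm ⟨ne x2, v2⟩ ⟨ne x1, v1⟩ fun _ => ⟨ne x3, v3⟩
      exact ⟨⟨ne x1, v1⟩, ⟨ne x2, v2⟩, ⟨ne x3, v3⟩, ⟨ne x4, v4⟩⟩
  exact (key a (S.conn f hfK a h.ma)).2.2.1.1 rfl

theorem Opt.exists_slim (hG : G.Connected) (hr : 1 ≤ r) (hf : Free G (r + 1)) {D : Finset V}
    (hD : Opt G r D) : ∃ D', Good G r D' ∧ Slim G D' := by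
  by_cases hs : Slim G D
  · exact ⟨D, hD.good, hs⟩
  unfold Slim at hs
  push Not at hs
  obtain ⟨A0, B0, C, a, b, c, h0, hi0, hA, hB, hC⟩ := hs
  obtain ⟨A, B, la, lb, h, hi, hla, hlb, ca, cb⟩ := h0.noncut2 hD.good.cd.2.1 hi0 hA hB
  obtain ⟨m, hm, l, hl, hml, hcm⟩ := h.rc.pair hC
  obtain ⟨gl, hcl, _⟩ := hD.third hG hr hf h hi hla hlb ca cb hm hl hml hcm
  have sing : ∀ {a b la : V} {A B : Finset V}, Tri G a A b B c C → InD D a A b B c C → la ∈ A →
      B.Nonempty → A = {la} ∧ G.Adj a la := by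
    intro a b la A B h hi hla hB
    have h1 : A.card ≤ 1 := by
      by_contra hn
      exact hD.no122 hG hr hf h.swap12 hi.s12 hB (by omega) hC
    have h2 : A = {la} := eq_singleton_iff_unique_mem.2 ⟨hla, fun x hx => card_le_one.1 h1 x hx la hla⟩
    obtain ⟨z, hz, hz'⟩ := (h.ra.2 la hla).first (fun he => h.ra.1 (he ▸ hla))
    exact ⟨h2, card_le_one.1 h1 z hz la hla ▸ hz'⟩
  obtain ⟨eA, aa⟩ := sing h hi hla ⟨lb, hlb⟩
  obtain ⟨eB, bb⟩ := sing h.swap12 hi.s12 hlb ⟨la, hla⟩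
  subst eA eB
  have nl : ∀ {a b la lb : V}, Tri G a {la} b {lb} c C → InD D a {la} b {lb} c C → G.Adj a la →
      Conn G (D.erase lb) → deg G D la ≠ 1 := by
    intro a b la lb h hi aa cb g
    refine hD.two_closed hG hr hf h hi (fun x hx y hy ha => Or.inl ?_) hcl (by simp) (by simp)
      hm hl hml hcm g gl cb
    rw [mem_singleton.1 hx] at ha
    exact eq_of_deg_le_one g.le hy hi.a ha aa.symm
  have na := nl h hi aa cb
  have nb := nl h.swap12 hi.s12 bb ca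
  have hab : Ap G la lb := (h.ab.1 la hla).1 lb hlb
  obtain ⟨qa, qb, hU⟩ := hD.good.unl_of hG hr (hi.A hla) (hi.B hlb) hab.1 ca cb fun hn => na hn.1
  obtain ⟨c1, c2⟩ := hD.good.unl hG hf h hi hla hlb hU
  obtain ⟨_, g2, _, cK, s1, s2, s3, _⟩ := c2 m hm l hl hml hcm
  obtain ⟨pa, pb, pq⟩ := hU.pend hG
  have hR : ({m, l} : Finset V) = C := eq_of_subset_of_card_le
    (insert_subset hm (singleton_subset_iff.2 hl)) (by rw [card_pair hml]; omega)
  have hK : ∀ y, y ∈ (D.erase l).erase m ↔ y ∈ D ∧ y ∉ C := by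
    intro y; rw [← hR]; simp only [mem_erase, mem_insert, mem_singleton]; tauto
  have sub : (D.erase l).erase m ⊆ D := fun y hy => ((hK y).1 hy).1
  have side : ∀ {a la q : V}, a ∈ D → la ∈ D → Sep G a {la} c C → Conn G (D.erase la) →
      deg G D la ≠ 1 → Pend G D la q → a ∈ (D.erase l).erase m ∧ la ∈ (D.erase l).erase m ∧
        Conn G (((D.erase l).erase m).erase la) ∧ 2 ≤ deg G ((D.erase l).erase m) la ∧
        Pend G ((D.erase l).erase m) la q := by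
    intro a la q ha hla hs ca na pa
    have o := hs.1 la (by simp)
    have cl : c ≠ l := fun he => h.rc.1 (he ▸ hl)
    have cm : c ≠ m := hcm.ne
    refine ⟨(hK a).2 ⟨ha, fun hx => (hs.2 a hx).2.1 rfl⟩, (hK la).2 ⟨hla, fun hx => (o.1 la hx).1 rfl⟩,
      ?_, ?_, pa.1, fun hx => pa.2.1 (sub hx), fun y hy => pa.2.2 y (sub hy)⟩
    · have k1 := conn_erase_leaf ca ((deg_mono (erase_subset _ _) l).trans gl.le)
        (mem_erase.2 ⟨o.2.1.symm, hi.c⟩) (mem_erase.2 ⟨(o.1 l hl).1.symm, hi.C hl⟩) cl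
      have k2 := conn_erase_leaf k1
        ((deg_mono (erase_subset_erase l (erase_subset _ _)) m).trans g2.le)
        (mem_erase.2 ⟨cl, mem_erase.2 ⟨o.2.1.symm, hi.c⟩⟩)
        (mem_erase.2 ⟨hml, mem_erase.2 ⟨(o.1 m hm).1.symm, hi.C hm⟩⟩) cm
      rwa [erase_right_comm (a := la), erase_right_comm (a := la)] at k2
    · have k1 := deg_insert (G := G) (notMem_erase l D) la
      have k2 := deg_insert (G := G) (notMem_erase m (D.erase l)) la
      rw [insert_erase (hi.C hl), if_neg (o.1 l hl).2] at k1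
      rw [insert_erase (mem_erase.2 ⟨hml, hi.C hm⟩), if_neg (o.1 m hm).2] at k2
      have := hD.good.cd.2.1.deg_pos (hi.C hm) (hi.C hl) hml hla
      omega
  obtain ⟨a1, a2, a3, a4, a5⟩ := side hi.a (hi.A hla) h.ac ca na pa
  obtain ⟨b1, b2, b3, b4, b5⟩ := side hi.b (hi.B hlb) h.bc cb nb pb
  have hg := hD.good.of_le s1 s2 s3
  rw [insert_comm] at hg
  have S : Star G r ((D.erase l).erase m) la lb qa qb :=
    ⟨hg, cK, a2, b2, a3, b3, a4, b4, a5, b5, hab, pq⟩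
  exact ⟨_, hg, S.slim hG hr hf (Cfg.no_leaf hG hr hf
    ⟨hD, h, hi, hC, hcl, sub, a1, b1, fun y hy => ((hK y).1 hy).2, aa, bb, S⟩)⟩

end Pool.Agent.P.MP_8b4774_co.Rep
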