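import Pool.Agent.P.MP_8b4774_co.RepG

set_option autoImplicit false

namespace Pool.Agent.P.MP_8b4774_co.Rep

open Finset

variable {V : Type} {G : SimpleGraph V} [DecidableEq V] [DecidableRel G.Adj] {r : ℕ}

/-- three legs of lengths `l i` inside `D` -/
structure Fam (G : SimpleGraph V) (D : Finset V) (l : Fin 3 → ℕ) (b : Fin 3 → V)
    (x : ∀ i, Fin (l i) → V) : Prop where
  base : (b 0 = b 1 ∧ b 1 = b 2) ∨ (G.Adj (b 0) (b 1) ∧ G.Adj (b 1) (b 2) ∧ G.Adj (b 0) (b 2))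
  first : ∀ i j, j.val = 0 → G.Adj (b i) (x i j)
  step : ∀ i j j', j.val + 1 = j'.val → G.Adj (x i j) (x i j')
  ne : ∀ i i' j, x i j ≠ b i'
  cross : ∀ i i' j j', i ≠ i' → Ap G (x i j) (x i' j')
  cb : ∀ i i' j, i ≠ i' → b i' ≠ b i → ¬ G.Adj (x i j) (b i')
  bm : ∀ i, b i ∈ D
  xm : ∀ i j, x i j ∈ D
  inj : ∀ i, Function.Injective (x i)

omit [DecidableRel G.Adj] in
theorem Fam.tri {D : Finset V} {l : Fin 3 → ℕ} {b : Fin 3 → V} {x : ∀ i, Fin (l i) → V}
    (h : Fam G D l b x) :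
    Tri G (b 0) (univ.image (x 0)) (b 1) (univ.image (x 1)) (b 2) (univ.image (x 2)) ∧
      InD D (b 0) (univ.image (x 0)) (b 1) (univ.image (x 1)) (b 2) (univ.image (x 2)) := by
  have off : ∀ i i', i ≠ i' → ∀ y ∈ univ.image (x i), Off G (b i) (b i') (univ.image (x i')) y := by
    intro i i' hne y hy
    obtain ⟨j, _, rfl⟩ := mem_image.1 hy
    refine ⟨fun z hz => ?_, h.ne i i' j, h.cb i i' j hne⟩
    obtain ⟨j', _, rfl⟩ := mem_image.1 hz
    exact h.cross i i' j j' hne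
  have br : ∀ i, Br G (b i) (univ.image (x i)) := by
    intro i
    have key : ∀ n (j : Fin (l i)), j.val = n → RIn G (univ.image (x i)) (b i) (x i j) := by
      intro n
      induction n with
      | zero =>
        intro j hj
        exact (RIn.refl _ _).tail (h.first i j hj) (mem_image_of_mem _ (mem_univ _))
      | succ n ih =>
        intro j hj
        exact (ih ⟨n, by omega⟩ rfl).tail (h.step i _ j hj.symm) (mem_image_of_mem _ (mem_univ _))
    refine ⟨fun hm => ?_, fun y hy => ?_⟩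
    · obtain ⟨j, _, hj⟩ := mem_image.1 hm
      exact h.ne i i j hj
    · obtain ⟨j, _, rfl⟩ := mem_image.1 hy
      exact key _ j rfl
  have sub : ∀ i, univ.image (x i) ⊆ D := fun i y hy => by
    obtain ⟨j, _, rfl⟩ := mem_image.1 hy
    exact h.xm i j
  exact ⟨⟨h.base, ⟨off 0 1 (by decide), off 1 0 (by decide)⟩,
    ⟨off 1 2 (by decide), off 2 1 (by decide)⟩, ⟨off 0 2 (by decide), off 2 0 (by decide)⟩,
    br 0, br 1, br 2⟩, ⟨h.bm 0, h.bm 1, h.bm 2, sub 0, sub 1, sub 2⟩⟩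

omit [DecidableEq V] [DecidableRel G.Adj] in
theorem fam_of_spider {D : Finset V} {l : Fin 3 → ℕ} (f : spider l ↪g G.induce (D : Set V)) :
    ∃ b x, Fam G D l b x := by
  have hA : ∀ u v, G.Adj (f u).1 (f v).1 ↔ (spider l).Adj u v := fun u v => f.map_adj_iff
  have hI : ∀ u v, (f u).1 = (f v).1 → u = v := fun u v h => f.injective (Subtype.ext h)
  refine ⟨fun _ => (f none).1, fun i j => (f (some ⟨i, j⟩)).1, Or.inl ⟨rfl, rfl⟩,
    fun i j hj => (hA _ _).2 ((spider_adj _ _).2 hj),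
    fun i j j' hj => (hA _ _).2 ((spider_adj _ _).2 ⟨rfl, Or.inl hj⟩),
    fun i i' j h => ?_, fun i i' j j' hne => ⟨fun h => ?_, fun h => ?_⟩,
    fun _ _ _ _ h => absurd rfl h, fun _ => (f none).2, fun i j => (f _).2, fun i j j' h => ?_⟩
  · cases hI _ _ h
  · cases hI _ _ h; exact hne rfl
  · exact hne ((spider_adj _ _).1 ((hA _ _).1 h)).1
  · cases hI _ _ h; rfl

omit [DecidableEq V] [DecidableRel G.Adj] in
theorem fam_of_net {D : Finset V} {l : Fin 3 → ℕ} (f : genNet l ↪g G.induce (D : Set V)) :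
    ∃ b x, Fam G D l b x := by
  have hA : ∀ u v, G.Adj (f u).1 (f v).1 ↔ (genNet l).Adj u v := fun u v => f.map_adj_iff
  have hI : ∀ u v, (f u).1 = (f v).1 → u = v := fun u v h => f.injective (Subtype.ext h)
  have hI' : ∀ u v, (f u).1 = (f v).1 → u.1 = v.1 ∧ u.2.val = v.2.val := fun u v h => by
    rw [hI u v h]; exact ⟨rfl, rfl⟩
  have hb : ∀ i i' : Fin 3, i ≠ i' → G.Adj (f ⟨i, 0⟩).1 (f ⟨i', 0⟩).1 := fun i i' h =>
    (hA _ _).2 ((genNet_adj _ _).2 (Or.inl ⟨h, rfl, rfl⟩))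
  refine ⟨fun i => (f ⟨i, 0⟩).1, fun i j => (f ⟨i, j.succ⟩).1,
    Or.inr ⟨hb 0 1 (by decide), hb 1 2 (by decide), hb 0 2 (by decide)⟩,
    fun i j hj => (hA _ _).2 ((genNet_adj _ _).2 (Or.inr ⟨rfl, Or.inl (by simp [hj])⟩)),
    fun i j j' hj => (hA _ _).2 ((genNet_adj _ _).2 (Or.inr ⟨rfl, Or.inl (by simp [hj])⟩)),
    fun i i' j h => ?_, fun i i' j j' hne => ⟨fun h => hne (hI' _ _ h).1, fun h => ?_⟩,
    fun i i' j hne _ h => ?_, fun _ => (f _).2, fun i j => (f _).2, fun i j j' h => ?_⟩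
  · have := (hI' _ _ h).2
    simp at this
  · rcases (genNet_adj _ _).1 ((hA _ _).1 h) with h' | h'
    · have := h'.2.1
      simp at this
    · exact hne h'.1
  · rcases (genNet_adj _ _).1 ((hA _ _).1 h) with h' | h'
    · have := h'.2.1
      simp at this
    · exact hne h'.1
  · have := (hI' _ _ h).2
    exact Fin.ext (by simpa using this)

omit [DecidableRel G.Adj] in
theorem Slim.no_fam {D : Finset V} (hD : Slim G D) : ¬ ∃ b x, Fam G D ![1, 1, 2] b x := by
  rintro ⟨b, x, h⟩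
  have h1 := hD _ _ _ _ _ _ h.tri.1 h.tri.2
    ⟨_, mem_image_of_mem _ (mem_univ (⟨0, by decide⟩ : Fin (![1, 1, 2] 0)))⟩
    ⟨_, mem_image_of_mem _ (mem_univ (⟨0, by decide⟩ : Fin (![1, 1, 2] 1)))⟩
  rw [card_image_of_injective _ (h.inj 2), card_univ, Fintype.card_fin] at h1
  exact absurd h1 (by decide)

omit [DecidableEq V] [DecidableRel G.Adj] in
theorem conn_iff {D : Finset V} : Conn G D ↔ (G.induce (D : Set V)).Preconnected := by
  constructor
  · intro h u v
    have key : ∀ y, RIn G D u.1 y → ∀ hy : y ∈ D, (G.induce (D : Set V)).Reachable u ⟨y, hy⟩ := by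
      intro y hy
      induction hy with
      | refl => exact fun _ => SimpleGraph.Reachable.refl _
      | @tail c d h1 h2 ih =>
        intro hd
        have hc : c ∈ D := mem_of_or u.2 subset_rfl (RIn.mem h1)
        exact (ih hc).trans (SimpleGraph.Adj.reachable (by simpa using h2.1))
    exact key v.1 (h u.1 u.2 v.1 v.2) v.2
  · intro h x hx y hy
    obtain ⟨p⟩ := h ⟨x, hx⟩ ⟨y, hy⟩
    have key : ∀ (u v : (D : Set V)) (_ : (G.induce (D : Set V)).Walk u v), RIn G D u.1 v.1 := by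
      intro u v q
      induction q with
      | nil => exact RIn.refl _ _
      | @cons a c _ h _ ih => exact ((RIn.refl _ _).tail (by simpa using h) c.2).trans ih
    exact key _ _ p

omit [DecidableEq V] [DecidableRel G.Adj] in
theorem cd_iff (hG : G.Connected) {D : Finset V} : CD G r D ↔ IsConnDistDom G r D := by
  have hd : ∀ v u, G.edist v u ≤ (r : ℕ∞) ↔ G.dist u v ≤ r := fun v u => by
    rw [← (hG.preconnected v u).coe_dist_eq_edist, SimpleGraph.dist_comm]
    exact Nat.cast_le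
  unfold CD IsConnDistDom
  simp only [hd]
  refine and_congr_right fun hne => and_congr_left fun _ => ?_
  rw [conn_iff]
  obtain ⟨x, hx⟩ := hne
  have : Nonempty (D : Set V) := ⟨⟨x, hx⟩⟩
  exact ⟨fun h => ⟨h⟩, fun h => h.preconnected⟩

omit [DecidableEq V] in
theorem exists_opt [Fintype V] (hG : G.Connected) : ∃ D, Opt G r D := by
  classical
  have h0 : CD G r univ := by
    have := hG.nonempty
    refine ⟨univ_nonempty, fun x _ y _ => ?_, fun v => ⟨v, mem_univ _, by simp⟩⟩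
    obtain ⟨p⟩ := hG.preconnected x y
    induction p with
    | nil => exact RIn.refl _ _
    | cons h _ ih => exact ((RIn.refl _ _).tail h (mem_univ _)).trans (ih (mem_univ _) (mem_univ _))
  obtain ⟨D0, h1, h2⟩ := exists_min_image (univ.filter (CD G r)) card ⟨univ, by simpa using h0⟩
  obtain ⟨D1, h3, h4⟩ := exists_min_image (univ.filter fun D => CD G r D ∧ D.card ≤ D0.card)
    (Ed G) ⟨D0, by simpa using h1⟩
  obtain ⟨D, h5, h6⟩ := exists_min_image
    (univ.filter fun D => (CD G r D ∧ D.card ≤ D0.card) ∧ Ed G D ≤ Ed G D1)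
    (Phi G) ⟨D1, by simpa using h3⟩
  simp only [mem_filter, mem_univ, true_and] at h1 h2 h3 h4 h5 h6
  exact ⟨D, ⟨h5.1.1, fun D' h => h5.1.2.trans (h2 D' h),
    fun D' h hle => h5.2.trans (h4 D' ⟨h, hle.trans h5.1.2⟩)⟩,
    fun D' h hle hle' => h6 D' ⟨⟨h, hle.trans h5.1.2⟩, hle'.trans h5.2⟩⟩

theorem repaired (k : ℕ) (hk : 2 ≤ k) (V : Type) [Fintype V] (G : SimpleGraph V)
    (hG : G.Connected) (h1 : IsEmpty (spider (fun _ => k) ↪g G))
    (h2 : IsEmpty (genNet (fun _ => k) ↪g G)) :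
    ∃ D : Finset V, IsConnDistDom G (k - 1) D ∧
      (∀ D' : Finset V, IsConnDistDom G (k - 1) D' → D.card ≤ D'.card) ∧
      IsEmpty (spider ![1, 1, 2] ↪g G.induce (D : Set V)) ∧
      IsEmpty (genNet ![1, 1, 2] ↪g G.induce (D : Set V)) := by
  classical
  obtain ⟨r, rfl⟩ : ∃ r, k = r + 1 := ⟨k - 1, by omega⟩
  have hf : Free G (r + 1) := fun h => h.elim (fun ⟨f⟩ => h1.false f) (fun ⟨f⟩ => h2.false f)
  obtain ⟨D0, hD0⟩ := exists_opt (r := r) hG
  obtain ⟨D, hD, hs⟩ := hD0.exists_slim hG (by omega) hf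
  exact ⟨D, (cd_iff hG).1 hD.cd, fun D' h => hD.min D' ((cd_iff hG).2 h),
    ⟨fun f => hs.no_fam (fam_of_spider f)⟩, ⟨fun f => hs.no_fam (fam_of_net f)⟩⟩

end Pool.Agent.P.MP_8b4774_co.Rep
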